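import Mathlib

/-! The additive energy of sequences of integers near a convex sequence: counting lemmas (helper49). -/

set_option autoImplicit false

namespace Pool.Agent.K7.H49.CX

open Finset

/-- `s` is within `K` of the sequence `f`, which has slopes at least `σ` and second differences at least `lam`
on `[0, n)` -/
structure Cx (n : ℕ) (f : ℕ → ℝ) (s : ℕ → ℤ) (K σ lam : ℝ) : Prop where
  near : ∀ i < n, |(s i : ℝ) - f i| ≤ K
  slope : ∀ i, i + 1 < n → σ ≤ f (i + 1) - f i
  second : ∀ i, i + 2 < n → lam ≤ f (i + 2) - 2 * f (i + 1) + f i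

variable {n : ℕ} {f : ℕ → ℝ} {s : ℕ → ℤ} {K σ lam : ℝ}

lemma Cx.mono (h : Cx n f s K σ lam) (i k : ℕ) (hk : i + k < n) : σ * k ≤ f (i + k) - f i := by
  induction k with
  | zero => simp
  | succ k ih =>
    have h1 := ih (by omega)
    have h2 := h.slope (i + k) (by omega)
    push_cast
    have e : i + (k + 1) = i + k + 1 := by ring
    rw [e]
    linarith

lemma Cx.slopes (h : Cx n f s K σ lam) (i k : ℕ) (hk : i + k + 1 < n) :
    lam * k ≤ (f (i + k + 1) - f (i + k)) - (f (i + 1) - f i) := by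
  induction k with
  | zero => simp
  | succ k ih =>
    have h1 := ih (by omega)
    have h2 := h.second (i + k) (by omega)
    push_cast
    have e : i + (k + 1) = i + k + 1 := by ring
    have e2 : i + (k + 1) + 1 = i + k + 2 := by ring
    rw [e2, e]
    linarith

lemma Cx.diffs (h : Cx n f s K σ lam) (u i k : ℕ) (hk : i + k + u < n) :
    lam * u * k ≤ (f (i + k + u) - f (i + k)) - (f (i + u) - f i) := by
  induction u with
  | zero => simp
  | succ u ih =>
    have h1 := ih (by omega)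
    have h2 := h.slopes (i + u) k (by omega)
    push_cast
    have e1 : i + k + (u + 1) = i + k + u + 1 := by ring
    have e2 : i + (u + 1) = i + u + 1 := by ring
    have e3 : i + u + k + 1 = i + k + u + 1 := by ring
    have e4 : i + u + k = i + k + u := by ring
    rw [e1, e2]
    rw [e3, e4] at h2
    linarith

/-- a set of naturals of small diameter is small -/
lemma card_le_of_diam (T : Finset ℕ) (D : ℝ) (hD : 0 ≤ D) (hT : ∀ i ∈ T, ∀ j ∈ T, i ≤ j → ((j : ℝ) - i) ≤ D) :
    (T.card : ℝ) ≤ D + 1 := by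
  rcases T.eq_empty_or_nonempty with rfl | hne
  · simp; linarith
  have h1 : T ⊆ Icc (T.min' hne) (T.max' hne) := fun i hi => mem_Icc.2 ⟨min'_le _ _ hi, le_max' _ _ hi⟩
  have h2 := card_le_card h1
  rw [Nat.card_Icc] at h2
  have h3 : T.min' hne ≤ T.max' hne := min'_le _ _ (max'_mem _ _)
  have h4 := hT _ (min'_mem _ hne) _ (max'_mem _ hne) h3
  have h5 : (T.card : ℝ) ≤ ((T.max' hne + 1 - T.min' hne : ℕ) : ℝ) := by exact_mod_cast h2
  rw [Nat.cast_sub (by omega)] at h5
  push_cast at h5
  linarith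

/-- the number of the pairs of indices at a given distance with a given difference of the values -/
lemma Cx.count_diff (h : Cx n f s K σ lam) (hK : 0 ≤ K) (hl : 0 < lam) (u : ℕ) (hu : 1 ≤ u) (v : ℤ) :
    (((range n).filter (fun i => i + u < n ∧ s (i + u) - s i = v)).card : ℝ) ≤ 4 * K / (u * lam) + 1 := by
  have hu0 : (0 : ℝ) < u := by exact_mod_cast hu
  apply card_le_of_diam _ _ (by positivity)
  intro i hi j hj hij
  rw [mem_filter] at hi hj
  obtain ⟨k, rfl⟩ := Nat.exists_eq_add_of_le hij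
  have h1 := h.diffs u i k (by omega)
  have a1 := abs_le.1 (h.near i (by omega))
  have a2 := abs_le.1 (h.near (i + u) hi.2.1)
  have a3 := abs_le.1 (h.near (i + k) (by omega))
  have a4 := abs_le.1 (h.near (i + k + u) hj.2.1)
  have e1 : (s (i + u) : ℝ) - s i = v := by exact_mod_cast hi.2.2
  have e2 : (s (i + k + u) : ℝ) - s (i + k) = v := by exact_mod_cast hj.2.2
  rw [le_div_iff₀ (by positivity)]
  push_cast
  nlinarith [a1.1, a1.2, a2.1, a2.2, a3.1, a3.2, a4.1, a4.2]

/-- the multiplicity of a value -/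
lemma Cx.mult (h : Cx n f s K σ lam) (hK : 0 ≤ K) (hσ : 0 < σ) (v : ℤ) :
    (((range n).filter (fun i => s i = v)).card : ℝ) ≤ 2 * K / σ + 1 := by
  apply card_le_of_diam _ _ (by positivity)
  intro i hi j hj hij
  rw [mem_filter, mem_range] at hi hj
  obtain ⟨k, rfl⟩ := Nat.exists_eq_add_of_le hij
  have h1 := h.mono i k hj.1
  have a1 := abs_le.1 (h.near i hi.1)
  have a3 := abs_le.1 (h.near (i + k) hj.1)
  rw [hi.2] at a1
  rw [hj.2] at a3
  rw [le_div_iff₀ hσ]
  push_cast
  nlinarith [a1.1, a1.2, a3.1, a3.2]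

/-- the rank of an integer relative to a finite set -/
def rk (B : Finset ℤ) (b : ℤ) : ℕ := (B.filter (fun c => c < b)).card

lemma rk_le (B : Finset ℤ) (b : ℤ) : rk B b ≤ B.card := card_filter_le _ _

lemma rk_mono (B : Finset ℤ) {b c : ℤ} (h : b ≤ c) : rk B b ≤ rk B c := by
  apply card_le_card
  intro x hx
  rw [mem_filter] at hx ⊢
  exact ⟨hx.1, hx.2.trans_le h⟩

lemma rk_lt (B : Finset ℤ) {b c : ℤ} (hb : b ∈ B) (h : b < c) : rk B b < rk B c := by
  apply card_lt_card
  rw [ssubset_iff_of_subset]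
  · exact ⟨b, mem_filter.2 ⟨hb, h⟩, fun hx => lt_irrefl _ (mem_filter.1 hx).2⟩
  · intro x hx
    rw [mem_filter] at hx ⊢
    exact ⟨hx.1, hx.2.trans h⟩

lemma rk_inj (B : Finset ℤ) {b c : ℤ} (hb : b ∈ B) (hc : c ∈ B) (h : rk B b = rk B c) : b = c := by
  rcases lt_trichotomy b c with h1 | h1 | h1
  · exact absurd (rk_lt B hb h1) (by omega)
  · exact h1
  · exact absurd (rk_lt B hc h1) (by omega)

/-- the rank grows slowly -/
lemma rk_step (B : Finset ℤ) (b c : ℤ) (D : ℝ) (hD : 0 ≤ D) (h : (c : ℝ) - b ≤ D) : (rk B c : ℝ) ≤ rk B b + D := by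
  rcases le_total c b with h1 | h1
  · have : (rk B c : ℝ) ≤ rk B b := by exact_mod_cast rk_mono B h1
    linarith
  · have h2 : rk B c ≤ rk B b + (c - b).toNat := by
      have h3 : B.filter (fun x => x < c) ⊆ B.filter (fun x => x < b) ∪ Ico b c := by
        intro x hx
        rw [mem_filter] at hx
        rw [mem_union, mem_filter, mem_Ico]
        by_cases h4 : x < b
        · exact Or.inl ⟨hx.1, h4⟩
        · exact Or.inr ⟨not_lt.1 h4, hx.2⟩
      refine (card_le_card h3).trans ((card_union_le _ _).trans ?_)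
      rw [Int.card_Ico]
      rfl
    have h4 : (((c - b).toNat : ℕ) : ℝ) = (c : ℝ) - b := by
      have : (((c - b).toNat : ℤ) : ℝ) = ((c - b : ℤ) : ℝ) := by rw [Int.toNat_of_nonneg (by omega)]
      push_cast at this
      exact_mod_cast this
    have h5 : (rk B c : ℝ) ≤ rk B b + ((c - b).toNat : ℕ) := by exact_mod_cast h2
    rw [h4] at h5
    linarith

/-- the pairs of elements of a set with close ranks -/
lemma close_pairs (B : Finset ℤ) (V : ℝ) (hV : 0 ≤ V) :
    (((B ×ˢ B).filter (fun p => |(rk B p.1 : ℝ) - rk B p.2| ≤ V)).card : ℝ) ≤ B.card * (2 * V + 1) := by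
  classical
  have h1 : ((B ×ˢ B).filter (fun p => |(rk B p.1 : ℝ) - rk B p.2| ≤ V)).card =
      ∑ b ∈ B, (B.filter (fun c => |(rk B b : ℝ) - rk B c| ≤ V)).card := by
    rw [card_filter, sum_product]
    apply sum_congr rfl
    intro b _
    rw [card_filter]
  rw [h1]
  push_cast
  rw [← nsmul_eq_mul]
  apply sum_le_card_nsmul
  intro b _
  have h2 : ((B.filter (fun c => |(rk B b : ℝ) - rk B c| ≤ V)).image (rk B)).card =
      (B.filter (fun c => |(rk B b : ℝ) - rk B c| ≤ V)).card := by
    apply card_image_of_injOn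
    intro c hc d hd h
    exact rk_inj B (mem_filter.1 hc).1 (mem_filter.1 hd).1 h
  rw [← h2]
  apply card_le_of_diam _ _ (by positivity)
  intro i hi j hj _
  rw [mem_image] at hi hj
  obtain ⟨c, hc, rfl⟩ := hi
  obtain ⟨d, hd, rfl⟩ := hj
  have a1 := abs_le.1 (mem_filter.1 hc).2
  have a2 := abs_le.1 (mem_filter.1 hd).2
  linarith [a1.1, a1.2, a2.1, a2.2]

end Pool.Agent.K7.H49.CX
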