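import Mathlib
import Pool.Agent.K7.H49.CX.Basic

/-! The additive energy of sequences of integers near a convex sequence: few sums have many representations
(helper49). -/

set_option autoImplicit false

namespace Pool.Agent.K7.H49.CX

open Finset

variable {n : ℕ} {f : ℕ → ℝ} {s : ℕ → ℤ} {K σ lam : ℝ}

/-- the number of the representations of `d` as the sum of a value of `s` and an element of `B` -/
def rB (s : ℕ → ℤ) (n : ℕ) (B : Finset ℤ) (d : ℤ) : ℕ := ((range n).filter (fun i => d - s i ∈ B)).card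

lemma count_big (a : ℕ → ℝ) (m : ℕ) (c V : ℝ) (hc : 0 ≤ c) (hstep : ∀ j < m, -c ≤ a (j + 1) - a j) :
    (((range m).filter (fun j => V < a (j + 1) - a j)).card : ℝ) * V ≤ a m - a 0 + c * m := by
  have h1 : ∑ j ∈ range m, (a (j + 1) - a j) = a m - a 0 := sum_range_sub a m
  have h2 := sum_filter_add_sum_filter_not (range m) (fun j => V < a (j + 1) - a j) (fun j => a (j + 1) - a j)
  have h3 : (((range m).filter (fun j => V < a (j + 1) - a j)).card : ℝ) * V ≤
      ∑ j ∈ (range m).filter (fun j => V < a (j + 1) - a j), (a (j + 1) - a j) := by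
    rw [← nsmul_eq_mul]
    apply card_nsmul_le_sum
    intro j hj
    exact (mem_filter.1 hj).2.le
  have h4 : -(c * m) ≤ ∑ j ∈ (range m).filter (fun j => ¬ V < a (j + 1) - a j), (a (j + 1) - a j) := by
    have h5 : (((range m).filter (fun j => ¬ V < a (j + 1) - a j)).card : ℝ) * (-c) ≤
        ∑ j ∈ (range m).filter (fun j => ¬ V < a (j + 1) - a j), (a (j + 1) - a j) := by
      rw [← nsmul_eq_mul]
      apply card_nsmul_le_sum
      intro j hj
      exact hstep j (mem_range.1 (mem_filter.1 hj).1)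
    have h6 : (((range m).filter (fun j => ¬ V < a (j + 1) - a j)).card : ℝ) ≤ m := by
      have := card_filter_le (range m) (fun j => ¬ V < a (j + 1) - a j)
      rw [card_range] at this
      exact_mod_cast this
    nlinarith
  linarith

lemma enumInc (I : Finset ℕ) (r : ℕ) (hr : r = I.card) : ∃ e : ℕ → ℕ, (∀ j < r, e j ∈ I) ∧
    ∀ j k, j < k → k < r → e j < e k := by
  refine ⟨fun j => if hj : j < r then I.orderEmbOfFin hr.symm ⟨j, hj⟩ else 0, ?_, ?_⟩
  · intro j hj
    simp only [dif_pos hj]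
    exact orderEmbOfFin_mem _ _ _
  · intro j k hjk hk
    simp only [dif_pos hk, dif_pos (hjk.trans hk)]
    exact (I.orderEmbOfFin hr.symm).strictMono hjk

/-- most of the representations are followed by a close one -/
lemma good_count (h : Cx n f s K σ lam) (hK : 0 ≤ K) (hσ : 0 ≤ σ) (B : Finset ℤ) (d : ℤ) (τ : ℕ) (hτ : 6 ≤ τ)
    (hr : τ ≤ rB s n B d) :
    (rB s n B d : ℝ) ≤ 6 * ((range n).filter (fun i => d - s i ∈ B ∧ ∃ i' < n, i < i' ∧ d - s i' ∈ B ∧
      ((i' : ℝ) - i) * τ ≤ 3 * n ∧ |(rk B (d - s i) : ℝ) - rk B (d - s i')| ≤ 3 * (B.card / τ + 2 * K))).card := by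
  classical
  obtain ⟨I, hI⟩ : ∃ I, I = (range n).filter (fun i => d - s i ∈ B) := ⟨_, rfl⟩
  obtain ⟨r, hrd⟩ : ∃ r, r = I.card := ⟨_, rfl⟩
  have hrB : rB s n B d = r := by rw [hrd, hI]; rfl
  rw [hrB] at hr ⊢
  have hr6 : 6 ≤ r := hτ.trans hr
  obtain ⟨m, hm⟩ : ∃ m, r = m + 1 := ⟨r - 1, by omega⟩
  obtain ⟨e, he1, he2⟩ := enumInc I r hrd
  have hen : ∀ j < r, e j < n ∧ d - s (e j) ∈ B := by
    intro j hj
    have := he1 j hj
    rw [hI, mem_filter, mem_range] at this
    exact this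
  have hτ0 : (0 : ℝ) < τ := by exact_mod_cast (by omega : 0 < τ)
  have hr0 : (0 : ℝ) < r := by exact_mod_cast (by omega : 0 < r)
  have hτr : (τ : ℝ) ≤ r := by exact_mod_cast hr
  have hn0 : (0 : ℝ) < n := by
    have := (hen 0 (by omega)).1
    exact_mod_cast (by omega : 0 < n)
  have hmr : (m : ℝ) ≤ r := by exact_mod_cast (by omega : m ≤ r)
  -- large steps of the index
  have b1 := count_big (fun j => (e j : ℝ)) m 0 (3 * n / r) le_rfl (by
    intro j hj
    have := he2 j (j + 1) (by omega) (by omega)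
    have h2 : (e j : ℝ) ≤ e (j + 1) := Nat.cast_le.2 this.le
    change -0 ≤ (e (j + 1) : ℝ) - e j
    linarith)
  change (((range m).filter (fun j => 3 * (n : ℝ) / r < (e (j + 1) : ℝ) - e j)).card : ℝ) * (3 * n / r) ≤
    (e m : ℝ) - e 0 + 0 * m at b1
  have c1 : (((range m).filter (fun j => 3 * (n : ℝ) / r < (e (j + 1) : ℝ) - e j)).card : ℝ) ≤ r / 3 := by
    have h2 : (e m : ℝ) ≤ n := by exact_mod_cast (hen m (by omega)).1.le
    have h3 : (0 : ℝ) ≤ e 0 := Nat.cast_nonneg _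
    have h4 : (((range m).filter (fun j => 3 * (n : ℝ) / r < (e (j + 1) : ℝ) - e j)).card : ℝ) * (3 * n / r) ≤ n := by
      linarith
    rw [mul_div_assoc'] at h4
    rw [div_le_iff₀ hr0] at h4
    have h5 : (((range m).filter (fun j => 3 * (n : ℝ) / r < (e (j + 1) : ℝ) - e j)).card : ℝ) * 3 ≤ r := by
      have h6 : ((((range m).filter (fun j => 3 * (n : ℝ) / r < (e (j + 1) : ℝ) - e j)).card : ℝ) * 3) * n ≤ r * n := by
        linarith
      exact le_of_mul_le_mul_right h6 hn0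
    linarith
  -- large steps of the rank
  have hy0 : (0 : ℝ) ≤ B.card := Nat.cast_nonneg _
  have hV0 : 0 < 3 * ((B.card : ℝ) / r + 2 * K) := by
    have h1 : 0 < B.card := card_pos.2 ⟨_, (hen 0 (by omega)).2⟩
    have h2 : (0 : ℝ) < B.card := by exact_mod_cast h1
    positivity
  have hdesc : ∀ j, j + 1 < r → (rk B (d - s (e (j + 1))) : ℝ) ≤ rk B (d - s (e j)) + 2 * K := by
    intro j hj
    apply rk_step _ _ _ _ (by positivity)
    obtain ⟨k, hk⟩ := Nat.exists_eq_add_of_le (he2 j (j + 1) (by omega) hj).le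
    have h1 := h.mono (e j) k (by rw [← hk]; exact (hen _ hj).1)
    rw [← hk] at h1
    have a1 := abs_le.1 (h.near _ (hen j (by omega)).1)
    have a2 := abs_le.1 (h.near _ (hen (j + 1) hj).1)
    have h2 : 0 ≤ σ * k := by positivity
    push_cast
    linarith [a1.1, a1.2, a2.1, a2.2]
  have b2 := count_big (fun j => -(rk B (d - s (e j)) : ℝ)) m (2 * K) (3 * ((B.card : ℝ) / r + 2 * K)) (by positivity) (by
    intro j hj
    have := hdesc j (by omega)
    change -(2 * K) ≤ -(rk B (d - s (e (j + 1))) : ℝ) - -(rk B (d - s (e j)) : ℝ)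
    linarith)
  change (((range m).filter (fun j => 3 * ((B.card : ℝ) / r + 2 * K) <
      -(rk B (d - s (e (j + 1))) : ℝ) - -(rk B (d - s (e j)) : ℝ))).card : ℝ) * (3 * ((B.card : ℝ) / r + 2 * K)) ≤
    -(rk B (d - s (e m)) : ℝ) - -(rk B (d - s (e 0)) : ℝ) + 2 * K * m at b2
  have c2 : (((range m).filter (fun j => 3 * ((B.card : ℝ) / r + 2 * K) <
      -(rk B (d - s (e (j + 1))) : ℝ) - -(rk B (d - s (e j)) : ℝ))).card : ℝ) ≤ r / 3 := by
    have h2 : (0 : ℝ) ≤ rk B (d - s (e m)) := Nat.cast_nonneg _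
    have h3 : (rk B (d - s (e 0)) : ℝ) ≤ B.card := by exact_mod_cast rk_le B _
    have h4 : (((range m).filter (fun j => 3 * ((B.card : ℝ) / r + 2 * K) <
      -(rk B (d - s (e (j + 1))) : ℝ) - -(rk B (d - s (e j)) : ℝ))).card : ℝ) * (3 * ((B.card : ℝ) / r + 2 * K)) ≤
        (r / 3) * (3 * ((B.card : ℝ) / r + 2 * K)) := by
      have h5 : (r / 3) * (3 * ((B.card : ℝ) / r + 2 * K)) = B.card + 2 * K * r := by
        field_simp
      rw [h5]
      have h6 : 2 * K * m ≤ 2 * K * r := by gcongr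
      linarith
    exact le_of_mul_le_mul_right h4 hV0
  -- the good steps
  obtain ⟨G1, hG1⟩ : ∃ G1, G1 = (range m).filter (fun j => 3 * (n : ℝ) / r < (e (j + 1) : ℝ) - e j) := ⟨_, rfl⟩
  obtain ⟨G2, hG2⟩ : ∃ G2, G2 = (range m).filter (fun j => 3 * ((B.card : ℝ) / r + 2 * K) <
      -(rk B (d - s (e (j + 1))) : ℝ) - -(rk B (d - s (e j)) : ℝ)) := ⟨_, rfl⟩
  rw [← hG1] at c1
  rw [← hG2] at c2
  clear b1 b2
  have hcount : (m : ℝ) ≤ ((range m \ (G1 ∪ G2)).card : ℝ) + (G1.card + G2.card) := by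
    have h1 : (range m).card ≤ (range m \ (G1 ∪ G2)).card + (G1 ∪ G2).card := by
      rw [← card_union_of_disjoint sdiff_disjoint]
      apply card_le_card
      intro x hx
      rw [mem_union, mem_sdiff]
      by_cases hx2 : x ∈ G1 ∪ G2
      · exact Or.inr hx2
      · exact Or.inl ⟨hx, hx2⟩
    rw [card_range] at h1
    have h2 := card_union_le G1 G2
    have h3 : m ≤ (range m \ (G1 ∪ G2)).card + (G1.card + G2.card) := by omega
    exact_mod_cast h3
  have hmain : (r : ℝ) / 6 ≤ ((range m \ (G1 ∪ G2)).card : ℝ) := by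
    have h1 : (m : ℝ) = r - 1 := by rw [hm]; push_cast; ring
    have h2 : (6 : ℝ) ≤ r := by exact_mod_cast hr6
    linarith
  have hfin : (range m \ (G1 ∪ G2)).card ≤ ((range n).filter (fun i => d - s i ∈ B ∧ ∃ i' < n, i < i' ∧ d - s i' ∈ B ∧
      ((i' : ℝ) - i) * τ ≤ 3 * n ∧ |(rk B (d - s i) : ℝ) - rk B (d - s i')| ≤ 3 * (B.card / τ + 2 * K))).card := by
    apply card_le_card_of_injOn e
    · intro j hj
      rw [mem_coe, mem_sdiff, mem_range, mem_union, not_or] at hj
      obtain ⟨hj1, hj2, hj3⟩ := hj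
      have q1 : ¬ 3 * (n : ℝ) / r < (e (j + 1) : ℝ) - e j := fun hc =>
        hj2 (by rw [hG1]; exact mem_filter.2 ⟨mem_range.2 hj1, hc⟩)
      have q2 : ¬ 3 * ((B.card : ℝ) / r + 2 * K) < -(rk B (d - s (e (j + 1))) : ℝ) - -(rk B (d - s (e j)) : ℝ) :=
        fun hc => hj3 (by rw [hG2]; exact mem_filter.2 ⟨mem_range.2 hj1, hc⟩)
      push Not at q1 q2
      rw [mem_coe, mem_filter, mem_range]
      refine ⟨(hen j (by omega)).1, (hen j (by omega)).2, e (j + 1), (hen (j + 1) (by omega)).1,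
        he2 j (j + 1) (by omega) (by omega), (hen (j + 1) (by omega)).2, ?_, ?_⟩
      · calc ((e (j + 1) : ℝ) - e j) * τ ≤ (3 * n / r) * r := by
              apply mul_le_mul q1 hτr hτ0.le (by positivity)
          _ = 3 * n := by field_simp
      · have hq : (B.card : ℝ) / r ≤ B.card / τ := div_le_div_of_nonneg_left hy0 hτ0 hτr
        have hd := hdesc j (by omega)
        have hyτ : (0 : ℝ) ≤ B.card / τ := by positivity
        rw [abs_le]
        constructor <;> linarith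
    · intro j hj k hk hjk
      rw [mem_coe, mem_sdiff, mem_range] at hj hk
      rcases lt_trichotomy j k with h1 | h1 | h1
      · exact absurd (he2 j k h1 (by omega)) (by omega)
      · exact h1
      · exact absurd (he2 k j h1 (by omega)) (by omega)
  have hfinr : ((range m \ (G1 ∪ G2)).card : ℝ) ≤ (((range n).filter (fun i => d - s i ∈ B ∧ ∃ i' < n, i < i' ∧ d - s i' ∈ B ∧
      ((i' : ℝ) - i) * τ ≤ 3 * n ∧ |(rk B (d - s i) : ℝ) - rk B (d - s i')| ≤ 3 * (B.card / τ + 2 * K))).card : ℝ) :=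
    Nat.cast_le.2 hfin
  linarith

lemma harm (U : ℕ) (n : ℕ) (hUn : U ≤ n) (hn : 1 ≤ n) : ∑ u ∈ Icc 1 U, (1 : ℝ) / u ≤ 1 + Real.log n := by
  have h1 : ∑ u ∈ Icc 1 U, (1 : ℝ) / u = ((harmonic U : ℚ) : ℝ) := by
    rw [harmonic_eq_sum_Icc]
    push_cast
    apply sum_congr rfl
    intro u _
    rw [one_div]
  rw [h1]
  refine (harmonic_le_one_add_log U).trans ?_
  rcases Nat.eq_zero_or_pos U with h0 | h0
  · subst h0
    simp only [Nat.cast_zero, Real.log_zero, add_zero]
    have := Real.log_nonneg (show (1 : ℝ) ≤ n by exact_mod_cast hn)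
    linarith
  · have : Real.log U ≤ Real.log n := Real.log_le_log (by exact_mod_cast h0) (by exact_mod_cast hUn)
    linarith

/-- the total number of representations of the sums with many representations -/
lemma sum_many (h : Cx n f s K σ lam) (hK : 0 ≤ K) (hσ : 0 ≤ σ) (hl : 0 < lam) (hn : 1 ≤ n) (B : Finset ℤ)
    (τ : ℕ) (hτ : 6 ≤ τ) (D : Finset ℤ) (hD : ∀ d ∈ D, τ ≤ rB s n B d) :
    (∑ d ∈ D, (rB s n B d : ℝ)) ≤ 6 * (B.card * (6 * (B.card / τ + 2 * K) + 1) *
      (3 * n / τ + 4 * K / lam * (1 + Real.log n))) := by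
  classical
  set V : ℝ := 3 * (B.card / τ + 2 * K) with hV
  have hV0 : 0 ≤ V := by positivity
  have hτ0 : (0 : ℝ) < τ := by exact_mod_cast (by omega : 0 < τ)
  have hτ6 : (6 : ℝ) ≤ τ := by exact_mod_cast hτ
  set U : ℕ := ⌊3 * (n : ℝ) / τ⌋₊ with hU
  have hUr : (U : ℝ) ≤ 3 * n / τ := Nat.floor_le (by positivity)
  have hUn : U ≤ n := by
    have h1 : (U : ℝ) ≤ n := by
      refine hUr.trans ?_
      rw [div_le_iff₀ hτ0]
      have : (0 : ℝ) ≤ n := Nat.cast_nonneg _
      nlinarith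
    exact_mod_cast h1
  set Pr := (B ×ˢ B).filter (fun p => |(rk B p.1 : ℝ) - rk B p.2| ≤ V) with hPr
  set Q := ((Icc 1 U ×ˢ Pr) ×ˢ range n).filter
    (fun q => q.2 + q.1.1 < n ∧ s (q.2 + q.1.1) - s q.2 = q.1.2.1 - q.1.2.2) with hQ
  set Gd : ℤ → Finset ℕ := fun d => (range n).filter (fun i => d - s i ∈ B ∧ ∃ i' < n, i < i' ∧ d - s i' ∈ B ∧
      ((i' : ℝ) - i) * τ ≤ 3 * n ∧ |(rk B (d - s i) : ℝ) - rk B (d - s i')| ≤ 3 * (B.card / τ + 2 * K)) with hGd
  have h1 : ∑ d ∈ D, (rB s n B d : ℝ) ≤ 6 * ∑ d ∈ D, ((Gd d).card : ℝ) := by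
    rw [mul_sum]
    apply sum_le_sum
    intro d hd
    exact good_count h hK hσ B d τ hτ (hD d hd)
  have h2 : ∑ d ∈ D, (Gd d).card ≤ Q.card := by
    rw [← card_sigma]
    have hch : ∀ x : (_ : ℤ) × ℕ, ∃ i' : ℕ, x ∈ D.sigma Gd → (i' < n ∧ x.2 < i' ∧ x.1 - s i' ∈ B ∧
        ((i' : ℝ) - x.2) * τ ≤ 3 * n ∧ |(rk B (x.1 - s x.2) : ℝ) - rk B (x.1 - s i')| ≤ 3 * (B.card / τ + 2 * K)) := by
      intro x
      by_cases hx : x ∈ D.sigma Gd
      · have h3 := (mem_sigma.1 hx).2
        simp only [hGd, mem_filter] at h3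
        obtain ⟨_, _, i', h4, h5, h6, h7, h8⟩ := h3
        exact ⟨i', fun _ => ⟨h4, h5, h6, h7, h8⟩⟩
      · exact ⟨0, fun h => absurd h hx⟩
    choose φ hφ using hch
    apply card_le_card_of_injOn (fun x => ((φ x - x.2, (x.1 - s x.2, x.1 - s (φ x))), x.2))
    · intro x hx
      rw [mem_coe] at hx
      obtain ⟨p1, p2, p3, p4, p5⟩ := hφ x hx
      have p2' : x.2 < φ x := p2
      have h3 := (mem_sigma.1 hx).2
      simp only [hGd, mem_filter, mem_range] at h3
      rw [mem_coe, hQ, mem_filter, mem_product, mem_product]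
      have hsub : x.2 + (φ x - x.2) = φ x := Nat.add_sub_cancel' p2'.le
      refine ⟨⟨⟨?_, ?_⟩, ?_⟩, ?_, ?_⟩
      · rw [mem_Icc]
        refine ⟨Nat.sub_pos_of_lt p2', ?_⟩
        apply Nat.le_floor
        rw [Nat.cast_sub p2.le, le_div_iff₀ hτ0]
        exact p4
      · rw [hPr, mem_filter, mem_product]
        exact ⟨⟨h3.2.1, p3⟩, p5⟩
      · rw [mem_range]; exact h3.1
      · simp only [hsub]; exact p1
      · simp only [hsub]; ring
    · intro x hx x' hx' he
      simp only [Prod.mk.injEq] at he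
      obtain ⟨⟨_, e1, _⟩, e2⟩ := he
      have e3 : x.1 = x'.1 := by
        rw [e2] at e1
        linarith
      exact Sigma.ext e3 (heq_of_eq e2)
  have h3 : (Q.card : ℝ) ≤ B.card * (2 * V + 1) * (3 * n / τ + 4 * K / lam * (1 + Real.log n)) := by
    have h4 : Q.card = ∑ u ∈ Icc 1 U, ∑ p ∈ Pr, ((range n).filter (fun i => i + u < n ∧ s (i + u) - s i = p.1 - p.2)).card := by
      rw [hQ, card_filter, sum_product, sum_product]
      apply sum_congr rfl
      intro u _
      apply sum_congr rfl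
      intro p _
      rw [card_filter]
    rw [h4]
    push_cast
    have h5 : ∀ u ∈ Icc 1 U, ∑ p ∈ Pr, (((range n).filter (fun i => i + u < n ∧ s (i + u) - s i = p.1 - p.2)).card : ℝ) ≤
        (B.card * (2 * V + 1)) * (1 + 4 * K / lam * (1 / u)) := by
      intro u hu
      have hu1 := (mem_Icc.1 hu).1
      have hu0 : (0 : ℝ) < u := by exact_mod_cast hu1
      have h6 : ∀ p ∈ Pr, (((range n).filter (fun i => i + u < n ∧ s (i + u) - s i = p.1 - p.2)).card : ℝ) ≤
          1 + 4 * K / lam * (1 / u) := by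
        intro p _
        refine (h.count_diff hK hl u hu1 (p.1 - p.2)).trans (le_of_eq ?_)
        field_simp
        ring
      refine (sum_le_card_nsmul _ _ _ h6).trans ?_
      rw [nsmul_eq_mul]
      apply mul_le_mul_of_nonneg_right (close_pairs B V hV0)
      positivity
    refine (sum_le_sum h5).trans ?_
    rw [← mul_sum]
    apply mul_le_mul_of_nonneg_left _ (by positivity)
    rw [sum_add_distrib, ← mul_sum, sum_const, Nat.card_Icc, nsmul_eq_mul, mul_one, Nat.add_sub_cancel]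
    apply add_le_add hUr
    apply mul_le_mul_of_nonneg_left (harm U n hUn hn) (by positivity)
  have h2r : ∑ d ∈ D, ((Gd d).card : ℝ) ≤ Q.card := by exact_mod_cast h2
  calc ∑ d ∈ D, (rB s n B d : ℝ) ≤ 6 * ∑ d ∈ D, ((Gd d).card : ℝ) := h1
    _ ≤ 6 * (B.card * (2 * V + 1) * (3 * n / τ + 4 * K / lam * (1 + Real.log n))) := by linarith
    _ = _ := by rw [hV]; ring

end Pool.Agent.K7.H49.CX
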