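import Mathlib
import Pool.Agent.K7.H49.CX.Count

/-! The additive energy of a sequence of integers near a convex sequence and of a set (helper49). -/

set_option autoImplicit false

namespace Pool.Agent.K7.H49.CX

open Finset

variable {n : ℕ} {f : ℕ → ℝ} {s : ℕ → ℤ} {K σ lam : ℝ}

lemma rB_le_n (s : ℕ → ℤ) (n : ℕ) (B : Finset ℤ) (d : ℤ) : rB s n B d ≤ n := by
  have := card_filter_le (range n) (fun i => d - s i ∈ B)
  rw [card_range] at this
  exact this

lemma rB_sum (s : ℕ → ℤ) (n : ℕ) (B D : Finset ℤ) : ∑ d ∈ D, rB s n B d ≤ n * B.card := by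
  classical
  have h1 : ∑ d ∈ D, rB s n B d = ∑ i ∈ range n, (D.filter (fun d => d - s i ∈ B)).card := by
    unfold rB
    simp only [card_filter]
    rw [sum_comm]
  rw [h1]
  have h2 : ∀ i ∈ range n, (D.filter (fun d => d - s i ∈ B)).card ≤ B.card := by
    intro i _
    apply card_le_card_of_injOn (fun d => d - s i)
    · intro d hd
      exact (mem_filter.1 (mem_coe.1 hd)).2
    · intro d _ d' _ h
      simp only at h
      linarith
  refine (sum_le_card_nsmul _ _ _ h2).trans ?_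
  rw [card_range, smul_eq_mul]

lemma rB_le (h : Cx n f s K σ lam) (hK : 0 ≤ K) (hσ : 0 < σ) (B : Finset ℤ) (d : ℤ) :
    (rB s n B d : ℝ) ≤ B.card * (2 * K / σ + 1) := by
  classical
  have h1 : rB s n B d = ∑ b ∈ B, ((range n).filter (fun i => s i = d - b)).card := by
    unfold rB
    rw [card_eq_sum_card_fiberwise (f := fun i => d - s i) (t := B)]
    · apply sum_congr rfl
      intro b hb
      congr 1
      ext i
      simp only [mem_filter]
      constructor
      · rintro ⟨⟨h1, h2⟩, h3⟩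
        exact ⟨h1, by linarith⟩
      · rintro ⟨h1, h2⟩
        refine ⟨⟨h1, ?_⟩, by linarith⟩
        have : d - s i = b := by linarith
        rw [this]; exact hb
    · intro i hi
      exact (mem_filter.1 (mem_coe.1 hi)).2
  rw [h1]
  push_cast
  rw [← nsmul_eq_mul]
  apply sum_le_card_nsmul
  intro b _
  exact h.mult hK hσ (d - b)

/-- the energy of the sequence and a set -/
theorem energy_B (h : Cx n f s K σ lam) (hK : 1 ≤ K) (hσ : 0 < σ) (hl : 0 < lam) (hn : 1 ≤ n) (M : ℝ)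
    (hM : 2 * K / σ + 1 ≤ M) (B D : Finset ℤ) :
    ∑ d ∈ D, (rB s n B d : ℝ) ^ 2 ≤ 500 * K * (Nat.log 2 n + 1) * (n * (B.card * √(B.card : ℝ)) +
      M * (4 * K / lam * (1 + Real.log n)) * (B.card : ℝ) ^ 2) := by
  classical
  obtain ⟨y, hy⟩ : ∃ y : ℝ, y = B.card := ⟨_, rfl⟩
  obtain ⟨Λ, hΛ⟩ : ∃ Λ : ℝ, Λ = 4 * K / lam * (1 + Real.log n) := ⟨_, rfl⟩
  have hK0 : 0 ≤ K := by linarith
  have hlog : 0 ≤ Real.log n := Real.log_nonneg (by exact_mod_cast hn)
  have hΛ0 : 0 ≤ Λ := by rw [hΛ]; positivity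
  have hM1 : 1 ≤ M := le_trans (by have : 0 ≤ 2 * K / σ := by positivity
                                   linarith) hM
  have hy0 : 0 ≤ y := by rw [hy]; positivity
  have hn1 : (1 : ℝ) ≤ n := by exact_mod_cast hn
  rw [← hy, ← hΛ]
  have hR0 : 0 ≤ n * (y * √y) + M * Λ * y ^ 2 := by positivity
  -- one level
  have hlev : ∀ k : ℕ, ∑ d ∈ D.filter (fun d => Nat.log 2 (rB s n B d) = k), (rB s n B d : ℝ) ^ 2 ≤
      500 * K * (n * (y * √y) + M * Λ * y ^ 2) := by
    intro k
    obtain ⟨E, hE⟩ : ∃ E, E = D.filter (fun d => Nat.log 2 (rB s n B d) = k) := ⟨_, rfl⟩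
    rw [← hE]
    have hEk : ∀ d ∈ E, Nat.log 2 (rB s n B d) = k := fun d hd => by
      rw [hE] at hd; exact (mem_filter.1 hd).2
    have htot : ∑ d ∈ E, (rB s n B d : ℝ) ≤ n * y := by
      rw [hy]; exact_mod_cast rB_sum s n B E
    rcases B.eq_empty_or_nonempty with hB | hB
    · have h1 : ∀ d ∈ E, (rB s n B d : ℝ) ^ 2 ≤ 0 := by
        intro d _
        have : rB s n B d = 0 := by
          unfold rB
          rw [hB]; simp
        rw [this]; simp
      refine (sum_nonpos h1).trans (by positivity)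
    have hy1 : 1 ≤ y := by rw [hy]; exact_mod_cast card_pos.2 hB
    have hsq1 : 1 ≤ √y := Real.one_le_sqrt.2 hy1
    have hyy : y ≤ y * √y := le_mul_of_one_le_right hy0 hsq1
    have hnyy : n * y ≤ n * (y * √y) := by gcongr
    obtain ⟨τ, hτ⟩ : ∃ τ : ℕ, τ = 2 ^ k := ⟨_, rfl⟩
    have hτ0 : (0 : ℝ) < τ := by rw [hτ]; positivity
    have hlt : ∀ d ∈ E, (rB s n B d : ℝ) ≤ 2 * τ := by
      intro d hd
      have h1 : rB s n B d < 2 ^ (Nat.log 2 (rB s n B d) + 1) := Nat.lt_pow_succ_log_self (by norm_num) _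
      rw [hEk d hd, pow_succ, ← hτ] at h1
      have h2 : (rB s n B d : ℝ) ≤ ((τ * 2 : ℕ) : ℝ) := by exact_mod_cast h1.le
      push_cast at h2
      linarith
    have hsq : ∑ d ∈ E, (rB s n B d : ℝ) ^ 2 ≤ 2 * τ * ∑ d ∈ E, (rB s n B d : ℝ) := by
      rw [mul_sum]
      apply sum_le_sum
      intro d hd
      rw [sq]
      exact mul_le_mul_of_nonneg_right (hlt d hd) (Nat.cast_nonneg _)
    have hS0 : 0 ≤ ∑ d ∈ E, (rB s n B d : ℝ) := sum_nonneg fun _ _ => Nat.cast_nonneg _
    by_cases hk3 : k ≤ 2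
    · have h1 : (τ : ℝ) ≤ 4 := by
        rw [hτ]
        have : 2 ^ k ≤ 2 ^ 2 := Nat.pow_le_pow_right (by norm_num) hk3
        have h2 : ((2 ^ k : ℕ) : ℝ) ≤ ((2 ^ 2 : ℕ) : ℝ) := by exact_mod_cast this
        push_cast at h2 ⊢
        linarith
      calc _ ≤ 2 * τ * ∑ d ∈ E, (rB s n B d : ℝ) := hsq
        _ ≤ 2 * 4 * (n * y) := by gcongr
        _ ≤ 500 * 1 * (n * (y * √y) + 0) := by nlinarith
        _ ≤ _ := by
            gcongr
            positivity
    push Not at hk3
    have hτ8 : 8 ≤ τ := by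
      rw [hτ]
      calc 8 = 2 ^ 3 := by norm_num
        _ ≤ 2 ^ k := Nat.pow_le_pow_right (by norm_num) hk3
    rcases E.eq_empty_or_nonempty with hE0 | ⟨d0, hd0⟩
    · rw [hE0, sum_empty]; positivity
    have hge : ∀ d ∈ E, τ ≤ rB s n B d := by
      intro d hd
      have h1 : rB s n B d ≠ 0 := by
        intro h0
        have := hEk d hd
        rw [h0, Nat.log_zero_right] at this
        omega
      have h2 := Nat.pow_log_le_self 2 h1
      rw [hEk d hd, ← hτ] at h2
      exact h2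
    have hτM : (τ : ℝ) ≤ y * M := by
      have h1 : (τ : ℝ) ≤ rB s n B d0 := by exact_mod_cast hge d0 hd0
      refine h1.trans ((rB_le h hK0 hσ B d0).trans ?_)
      rw [hy]
      exact mul_le_mul_of_nonneg_left hM (Nat.cast_nonneg _)
    have hmany := sum_many h hK0 hσ.le hl hn B τ (by omega) E hge
    rw [← hy, ← hΛ] at hmany
    rcases le_or_gt (τ : ℝ) (11 * √y) with hc | hc
    · calc _ ≤ 2 * τ * ∑ d ∈ E, (rB s n B d : ℝ) := hsq
        _ ≤ 2 * (11 * √y) * (n * y) := by gcongr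
        _ = 22 * (n * (y * √y)) := by ring
        _ ≤ 500 * 1 * (n * (y * √y) + 0) := by
            have : 0 ≤ n * (y * √y) := by positivity
            linarith
        _ ≤ _ := by
            gcongr
            positivity
    · have hss : √y * √y = y := Real.mul_self_sqrt hy0
      have h1 : y / τ ≤ √y / 11 := by
        rw [div_le_div_iff₀ hτ0 (by norm_num)]
        nlinarith [Real.sqrt_nonneg y]
      have h2 : 2 * τ * (6 * (y * (6 * (y / τ + 2 * K) + 1) * (3 * n / τ + Λ))) =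
          216 * (n * y * (y / τ)) + 72 * (Λ * y ^ 2) + 36 * (12 * K + 1) * (n * y) + 12 * (12 * K + 1) * (τ * (y * Λ)) := by
        field_simp
        ring
      have h3 : (12 * K + 1) ≤ 13 * K := by linarith
      have hΛy : 0 ≤ Λ * y ^ 2 := by positivity
      have hny : 0 ≤ (n : ℝ) * y := by positivity
      have hny2 : 0 ≤ (n : ℝ) * (y * √y) := by positivity
      have hKM : 1 ≤ K * M := by nlinarith
      calc _ ≤ 2 * τ * ∑ d ∈ E, (rB s n B d : ℝ) := hsq
        _ ≤ 2 * τ * (6 * (y * (6 * (y / τ + 2 * K) + 1) * (3 * n / τ + Λ))) := by gcongr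
        _ = 216 * (n * y * (y / τ)) + 72 * (Λ * y ^ 2) + 36 * (12 * K + 1) * (n * y) + 12 * (12 * K + 1) * (τ * (y * Λ)) := h2
        _ ≤ 216 * (n * y * (√y / 11)) + 72 * (Λ * y ^ 2) + 36 * (13 * K) * (n * (y * √y)) +
            12 * (13 * K) * ((y * M) * (y * Λ)) := by gcongr
        _ = (216 / 11) * (n * (y * √y)) + 72 * (Λ * y ^ 2) + 468 * (K * (n * (y * √y))) +
            156 * (K * M * (Λ * y ^ 2)) := by ring
        _ ≤ 20 * (K * (n * (y * √y))) + 72 * (K * M * (Λ * y ^ 2)) + 468 * (K * (n * (y * √y))) +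
            156 * (K * M * (Λ * y ^ 2)) := by
            have g1 : n * (y * √y) ≤ K * (n * (y * √y)) := le_mul_of_one_le_left hny2 hK
            have g2 : Λ * y ^ 2 ≤ K * M * (Λ * y ^ 2) := le_mul_of_one_le_left hΛy hKM
            linarith
        _ ≤ 500 * K * (n * (y * √y) + M * Λ * y ^ 2) := by
            have g1 : 0 ≤ K * (n * (y * √y)) := by positivity
            have g2 : 0 ≤ K * M * (Λ * y ^ 2) := by positivity
            have e : 500 * K * (n * (y * √y) + M * Λ * y ^ 2) = 500 * (K * (n * (y * √y))) + 500 * (K * M * (Λ * y ^ 2)) := by ring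
            rw [e]
            linarith
  have hpart : ∑ d ∈ D, (rB s n B d : ℝ) ^ 2 =
      ∑ k ∈ range (Nat.log 2 n + 1), ∑ d ∈ D.filter (fun d => Nat.log 2 (rB s n B d) = k), (rB s n B d : ℝ) ^ 2 := by
    rw [sum_fiberwise_of_maps_to]
    intro d _
    rw [mem_range, Nat.lt_succ_iff]
    exact Nat.log_mono_right (rB_le_n s n B d)
  rw [hpart]
  refine (sum_le_card_nsmul _ _ _ fun k _ => hlev k).trans (le_of_eq ?_)
  rw [card_range, nsmul_eq_mul]
  push_cast
  ring

end Pool.Agent.K7.H49.CX
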