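import Mathlib
import Pool.Agent.K7.H49.CX.EnB

/-! The additive energy of all orders of a sequence of integers near a convex sequence (helper49). -/

set_option autoImplicit false

namespace Pool.Agent.K7.H49.CX

open Finset

variable {n : ℕ} {f : ℕ → ℝ} {s : ℕ → ℤ} {K σ lam : ℝ}

/-- the weighted version of the bound for the energy -/
theorem energy_w (h : Cx n f s K σ lam) (hK : 1 ≤ K) (hσ : 0 < σ) (hl : 0 < lam) (hn : 1 ≤ n) (M : ℝ)
    (hM : 2 * K / σ + 1 ≤ M) (w : ℤ → ℕ) (A1 A2 : ℝ) (T : ℕ) (hA1 : ∀ D : Finset ℤ, ∑ d ∈ D, (w d : ℝ) ≤ A1)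
    (hA2 : ∀ D : Finset ℤ, ∑ d ∈ D, (w d : ℝ) ^ 2 ≤ A2) (hT : ∀ d, w d < 2 ^ T) (D : Finset ℤ) :
    ∑ d ∈ D, (∑ i ∈ range n, (w (d - s i) : ℝ)) ^ 2 ≤ 4 * (T : ℝ) ^ 2 * (500 * K * (Nat.log 2 n + 1)) *
      (n * (A1 * √A2) + M * (4 * K / lam * (1 + Real.log n)) * A1 ^ 2) := by
  classical
  obtain ⟨Λ, hΛ⟩ : ∃ Λ : ℝ, Λ = 4 * K / lam * (1 + Real.log n) := ⟨_, rfl⟩
  obtain ⟨C0, hC0⟩ : ∃ C0 : ℝ, C0 = 500 * K * (Nat.log 2 n + 1) := ⟨_, rfl⟩
  have hK0 : 0 ≤ K := by linarith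
  have hlog : 0 ≤ Real.log n := Real.log_nonneg (by exact_mod_cast hn)
  have hΛ0 : 0 ≤ Λ := by rw [hΛ]; positivity
  have hC00 : 0 ≤ C0 := by rw [hC0]; positivity
  have hM1 : 1 ≤ M := le_trans (by have : 0 ≤ 2 * K / σ := by positivity
                                   linarith) hM
  have hA10 : 0 ≤ A1 := by simpa using hA1 ∅
  have hA20 : 0 ≤ A2 := by simpa using hA2 ∅
  obtain ⟨Im, hIm⟩ : ∃ Im : Finset ℤ, Im = (D ×ˢ range n).image (fun p => p.1 - s p.2) := ⟨_, rfl⟩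
  obtain ⟨Bk, hBk⟩ : ∃ Bk : ℕ → Finset ℤ, Bk = fun k => Im.filter (fun b => Nat.log 2 (w b) = k ∧ w b ≠ 0) := ⟨_, rfl⟩
  rw [← hΛ, ← hC0]
  -- the pointwise bound
  have hpt : ∀ d ∈ D, ∑ i ∈ range n, (w (d - s i) : ℝ) ≤ ∑ k ∈ range T, (2 : ℝ) ^ (k + 1) * rB s n (Bk k) d := by
    intro d hd
    have h1 : ∀ k ∈ range T, (2 : ℝ) ^ (k + 1) * rB s n (Bk k) d =
        ∑ i ∈ range n, if d - s i ∈ Bk k then (2 : ℝ) ^ (k + 1) else 0 := by
      intro k _
      unfold rB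
      rw [card_filter, Nat.cast_sum, mul_sum]
      apply sum_congr rfl
      intro i _
      split_ifs <;> simp
    rw [sum_congr rfl h1, sum_comm]
    apply sum_le_sum
    intro i hi
    by_cases h0 : w (d - s i) = 0
    · rw [h0, Nat.cast_zero]
      apply sum_nonneg
      intro k _
      split_ifs <;> positivity
    · obtain ⟨k, hk⟩ : ∃ k, k = Nat.log 2 (w (d - s i)) := ⟨_, rfl⟩
      have hkT : k < T := by
        have h2 : 2 ^ k ≤ w (d - s i) := by rw [hk]; exact Nat.pow_log_le_self 2 h0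
        exact (Nat.pow_lt_pow_iff_right (by norm_num : 1 < 2)).1 (h2.trans_lt (hT _))
      have h3 : w (d - s i) < 2 ^ (k + 1) := by rw [hk]; exact Nat.lt_pow_succ_log_self (by norm_num) _
      have h4 : (w (d - s i) : ℝ) ≤ (2 : ℝ) ^ (k + 1) := by exact_mod_cast h3.le
      have h5 : d - s i ∈ Bk k := by
        rw [hBk]
        simp only [mem_filter]
        refine ⟨?_, hk.symm, h0⟩
        rw [hIm, mem_image]
        exact ⟨(d, i), mem_product.2 ⟨hd, hi⟩, rfl⟩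
      refine h4.trans ?_
      refine le_trans ?_ (single_le_sum (f := fun k => if d - s i ∈ Bk k then (2 : ℝ) ^ (k + 1) else 0)
        (fun j _ => by split_ifs <;> positivity) (mem_range.2 hkT))
      simp only [if_pos h5, le_refl]
  -- Cauchy's inequality
  have hcs : ∀ d ∈ D, (∑ i ∈ range n, (w (d - s i) : ℝ)) ^ 2 ≤
      T * ∑ k ∈ range T, ((2 : ℝ) ^ (k + 1)) ^ 2 * (rB s n (Bk k) d : ℝ) ^ 2 := by
    intro d hd
    have h0 : 0 ≤ ∑ i ∈ range n, (w (d - s i) : ℝ) := sum_nonneg fun _ _ => Nat.cast_nonneg _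
    calc _ ≤ (∑ k ∈ range T, (2 : ℝ) ^ (k + 1) * rB s n (Bk k) d) ^ 2 := by
          gcongr
          exact hpt d hd
      _ ≤ (range T).card * ∑ k ∈ range T, ((2 : ℝ) ^ (k + 1) * rB s n (Bk k) d) ^ 2 := sq_sum_le_card_mul_sum_sq
      _ = _ := by
          rw [card_range]
          congr 1
          apply sum_congr rfl
          intro k _
          rw [mul_pow]
  have hlev : ∀ k ∈ range T, ((2 : ℝ) ^ (k + 1)) ^ 2 * ∑ d ∈ D, (rB s n (Bk k) d : ℝ) ^ 2 ≤
      4 * C0 * (n * (A1 * √A2) + M * Λ * A1 ^ 2) := by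
    intro k _
    have h1 := energy_B h hK hσ hl hn M hM (Bk k) D
    rw [← hΛ, ← hC0] at h1
    obtain ⟨b, hb⟩ : ∃ b : ℝ, b = (Bk k).card := ⟨_, rfl⟩
    have hb0 : 0 ≤ b := by rw [hb]; positivity
    rw [← hb] at h1
    have hge : ∀ c ∈ Bk k, (2 : ℝ) ^ k ≤ w c := by
      intro c hc
      rw [hBk] at hc
      simp only [mem_filter] at hc
      have h2 := Nat.pow_log_le_self 2 hc.2.2
      rw [hc.2.1] at h2
      exact_mod_cast h2
    have h2 : (2 : ℝ) ^ k * b ≤ A1 := by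
      refine le_trans ?_ (hA1 (Bk k))
      have := card_nsmul_le_sum (Bk k) (fun c => (w c : ℝ)) ((2 : ℝ) ^ k) hge
      rw [nsmul_eq_mul, ← hb] at this
      linarith
    have h3 : ((2 : ℝ) ^ k) ^ 2 * b ≤ A2 := by
      refine le_trans ?_ (hA2 (Bk k))
      have := card_nsmul_le_sum (Bk k) (fun c => (w c : ℝ) ^ 2) (((2 : ℝ) ^ k) ^ 2) (fun c hc => by
        have := hge c hc
        gcongr)
      rw [nsmul_eq_mul, ← hb] at this
      linarith
    have h4 : (2 : ℝ) ^ k * √b ≤ √A2 := by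
      apply Real.le_sqrt_of_sq_le
      rw [mul_pow, Real.sq_sqrt hb0]
      exact h3
    have hp : 0 < (2 : ℝ) ^ k := by positivity
    calc _ ≤ ((2 : ℝ) ^ (k + 1)) ^ 2 * (C0 * (n * (b * √b) + M * Λ * b ^ 2)) := by gcongr
      _ = 4 * C0 * (n * (((2 : ℝ) ^ k * b) * ((2 : ℝ) ^ k * √b)) + M * Λ * ((2 : ℝ) ^ k * b) ^ 2) := by
          rw [pow_succ]; ring
      _ ≤ 4 * C0 * (n * (A1 * √A2) + M * Λ * A1 ^ 2) := by gcongr
  calc _ ≤ ∑ d ∈ D, T * ∑ k ∈ range T, ((2 : ℝ) ^ (k + 1)) ^ 2 * (rB s n (Bk k) d : ℝ) ^ 2 := sum_le_sum hcs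
    _ = T * ∑ k ∈ range T, ((2 : ℝ) ^ (k + 1)) ^ 2 * ∑ d ∈ D, (rB s n (Bk k) d : ℝ) ^ 2 := by
        rw [← mul_sum, sum_comm]
        simp only [mul_sum]
    _ ≤ T * ((range T).card • (4 * C0 * (n * (A1 * √A2) + M * Λ * A1 ^ 2))) := by
        apply mul_le_mul_of_nonneg_left _ (Nat.cast_nonneg _)
        exact sum_le_card_nsmul _ _ _ hlev
    _ = _ := by
        rw [card_range, nsmul_eq_mul]
        ring

/-- the number of representations as sums of `h` values -/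
def rc (s : ℕ → ℤ) (n : ℕ) : ℕ → ℤ → ℕ
  | 0, d => if d = 0 then 1 else 0
  | h + 1, d => ∑ i ∈ range n, rc s n h (d - s i)

lemma rc_sum (s : ℕ → ℤ) (n : ℕ) (h : ℕ) (D : Finset ℤ) : ∑ d ∈ D, rc s n h d ≤ n ^ h := by
  classical
  induction h generalizing D with
  | zero =>
    simp only [rc, pow_zero]
    rw [sum_ite_eq' D (0 : ℤ) (fun _ => 1)]
    split_ifs <;> simp
  | succ h ih =>
    simp only [rc]
    rw [sum_comm]
    have h1 : ∀ i ∈ range n, ∑ d ∈ D, rc s n h (d - s i) ≤ n ^ h := by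
      intro i _
      have h2 : ∑ d ∈ D, rc s n h (d - s i) = ∑ d ∈ D.image (fun d => d - s i), rc s n h d := by
        rw [sum_image]
        intro a _ b _ hab
        simp only at hab
        linarith
      rw [h2]
      exact ih _
    refine (sum_le_card_nsmul _ _ _ h1).trans ?_
    rw [card_range, smul_eq_mul, pow_succ, mul_comm]

lemma rc_le (s : ℕ → ℤ) (n : ℕ) (h : ℕ) (d : ℤ) : rc s n h d ≤ n ^ h := by
  have := rc_sum s n h {d}
  simpa using this

/-- the representations -/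
lemma rc_eq (s : ℕ → ℤ) (n : ℕ) (h : ℕ) (d : ℤ) :
    ((Fintype.piFinset (fun _ : Fin h => range n)).filter (fun v => ∑ j, s (v j) = d)).card = rc s n h d := by
  classical
  induction h generalizing d with
  | zero =>
    simp only [rc, univ_eq_empty, sum_empty]
    by_cases hd : d = 0
    · subst hd
      simp
    · rw [if_neg hd, filter_false_of_mem]
      · simp
      · intro _ _ h0
        exact hd h0.symm
  | succ h ih =>
    simp only [rc]
    rw [card_eq_sum_card_fiberwise (f := fun v => v 0) (t := range n)]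
    · apply sum_congr rfl
      intro i hi
      rw [← ih (d - s i)]
      apply card_bij (fun v _ => fun j : Fin h => v j.succ)
      · intro v hv
        rw [mem_filter, mem_filter, Fintype.mem_piFinset] at hv
        rw [mem_filter, Fintype.mem_piFinset]
        refine ⟨fun j => hv.1.1 _, ?_⟩
        have h1 := hv.1.2
        rw [Fin.sum_univ_succ] at h1
        have h2 : v 0 = i := hv.2
        rw [h2] at h1
        linarith
      · intro v hv v' hv' he
        rw [mem_filter] at hv hv'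
        ext j
        refine Fin.cases ?_ (fun j => ?_) j
        · have a : v 0 = i := hv.2
          have b : v' 0 = i := hv'.2
          rw [a, b]
        · exact congrFun he j
      · intro u hu
        rw [mem_filter, Fintype.mem_piFinset] at hu
        refine ⟨Fin.cons i u, ?_, ?_⟩
        · rw [mem_filter, mem_filter, Fintype.mem_piFinset]
          refine ⟨⟨?_, ?_⟩, ?_⟩
          · intro j
            refine Fin.cases ?_ (fun j => ?_) j
            · simpa using hi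
            · simpa using hu.1 j
          · rw [Fin.sum_univ_succ]
            simp only [Fin.cons_zero, Fin.cons_succ]
            linarith [hu.2]
          · simp
        · ext j
          simp
    · intro v hv
      have := mem_filter.1 (mem_coe.1 hv)
      exact (Fintype.mem_piFinset.1 this.1) 0

/-- the energy of all orders -/
theorem energy_rc (h : Cx n f s K σ lam) (hK : 1 ≤ K) (hσ : 0 < σ) (hl : 0 < lam) (hn : 1 ≤ n) (M : ℝ)
    (hM : 2 * K / σ + 1 ≤ M) (H : ℕ) (G : ℝ)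
    (hG : 2 * (4 * ((H : ℝ) * (Nat.log 2 n + 1)) ^ 2 * (500 * K * (Nat.log 2 n + 1))) + M ≤ G) (k : ℕ) (hk : k + 1 ≤ H)
    (D : Finset ℤ) : ∑ d ∈ D, (rc s n (k + 1) d : ℝ) ^ 2 ≤
      G ^ 2 * ((n : ℝ) ^ (2 * k) * ((n : ℝ) ^ ((1 / 2 : ℝ) ^ k) + M * (4 * K / lam * (1 + Real.log n)))) := by
  classical
  obtain ⟨Γ, hΓ⟩ : ∃ Γ : ℝ, Γ = M * (4 * K / lam * (1 + Real.log n)) := ⟨_, rfl⟩
  obtain ⟨P, hP⟩ : ∃ P : ℝ, P = 4 * ((H : ℝ) * (Nat.log 2 n + 1)) ^ 2 * (500 * K * (Nat.log 2 n + 1)) := ⟨_, rfl⟩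
  rw [← hΓ]
  rw [← hP] at hG
  have hK0 : 0 ≤ K := by linarith
  have hlog : 0 ≤ Real.log n := Real.log_nonneg (by exact_mod_cast hn)
  have hM1 : 1 ≤ M := le_trans (by have : 0 ≤ 2 * K / σ := by positivity
                                   linarith) hM
  have hΓ0 : 0 ≤ Γ := by rw [hΓ]; positivity
  have hP0 : 0 ≤ P := by rw [hP]; positivity
  have hG1 : 1 ≤ G := by linarith
  have hG2P : 2 * P ≤ G := by linarith
  have hGM : M ≤ G := by linarith
  have hn1 : (1 : ℝ) ≤ n := by exact_mod_cast hn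
  have hn0 : (0 : ℝ) < n := by linarith
  induction k generalizing D with
  | zero =>
    simp only [zero_add, mul_zero, pow_zero, one_mul]
    rw [Real.rpow_one]
    have h1 : ∀ d, (rc s n 1 d : ℝ) ≤ M := by
      intro d
      refine le_trans ?_ hM
      refine le_trans ?_ (h.mult hK0 hσ d)
      apply le_of_eq
      congr 1
      simp only [rc]
      rw [card_filter]
      apply sum_congr rfl
      intro i _
      by_cases hi : s i = d
      · rw [if_pos (by linarith), if_pos hi]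
      · rw [if_neg (fun h0 => hi (by linarith)), if_neg hi]
    have h2 : ∑ d ∈ D, (rc s n 1 d : ℝ) ≤ n := by
      have := rc_sum s n 1 D
      rw [pow_one] at this
      exact_mod_cast this
    calc ∑ d ∈ D, (rc s n 1 d : ℝ) ^ 2 ≤ ∑ d ∈ D, M * (rc s n 1 d : ℝ) := by
          apply sum_le_sum
          intro d _
          rw [sq]
          exact mul_le_mul_of_nonneg_right (h1 d) (Nat.cast_nonneg _)
      _ = M * ∑ d ∈ D, (rc s n 1 d : ℝ) := by rw [mul_sum]
      _ ≤ G * n := by gcongr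
      _ ≤ G ^ 2 * (n + Γ) := by
          have e1 : G ≤ G ^ 2 := by nlinarith
          calc G * n ≤ G ^ 2 * n := by gcongr
            _ ≤ _ := by gcongr; linarith
  | succ k ih =>
    have ihk := ih (by omega)
    obtain ⟨a, ha⟩ : ∃ a : ℝ, a = (1 / 2 : ℝ) ^ k := ⟨_, rfl⟩
    have ha2 : (1 / 2 : ℝ) ^ (k + 1) = a / 2 := by rw [pow_succ, ← ha]; ring
    rw [← ha] at ihk
    rw [ha2]
    obtain ⟨T, hT⟩ : ∃ T : ℕ, T = (k + 1) * (Nat.log 2 n + 1) := ⟨_, rfl⟩
    have hTlt : ∀ d, rc s n (k + 1) d < 2 ^ T := by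
      intro d
      refine (rc_le s n (k + 1) d).trans_lt ?_
      rw [hT, mul_comm, pow_mul]
      exact Nat.pow_lt_pow_left (Nat.lt_pow_succ_log_self (by norm_num) n) (by omega)
    have hTH : (T : ℝ) ≤ H * (Nat.log 2 n + 1) := by
      rw [hT]
      have : ((k + 1 : ℕ) : ℝ) ≤ H := by exact_mod_cast (by omega : k + 1 ≤ H)
      push_cast at this ⊢
      gcongr
    have hA1 : ∀ D : Finset ℤ, ∑ d ∈ D, (rc s n (k + 1) d : ℝ) ≤ (n : ℝ) ^ (k + 1) := by
      intro D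
      exact_mod_cast rc_sum s n (k + 1) D
    have hmain := energy_w h hK hσ hl hn M hM (rc s n (k + 1)) ((n : ℝ) ^ (k + 1)) _ T hA1 ihk hTlt D
    rw [← hΓ] at hmain
    have hna : 0 < (n : ℝ) ^ a := by positivity
    have hsq : √(G ^ 2 * ((n : ℝ) ^ (2 * k) * ((n : ℝ) ^ a + Γ))) ≤ G * ((n : ℝ) ^ k * ((n : ℝ) ^ (a / 2) + (Γ + 1))) := by
      rw [Real.sqrt_le_left (by positivity)]
      have e1 : ((n : ℝ) ^ (a / 2)) ^ 2 = (n : ℝ) ^ a := by
        rw [← Real.rpow_natCast, ← Real.rpow_mul hn0.le]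
        congr 1
        push_cast
        ring
      have e2 : (n : ℝ) ^ (2 * k) = ((n : ℝ) ^ k) ^ 2 := by rw [mul_comm, pow_mul]
      rw [mul_pow, mul_pow, e2]
      apply mul_le_mul_of_nonneg_left _ (by positivity)
      apply mul_le_mul_of_nonneg_left _ (by positivity)
      rw [← e1]
      have e3 : 0 < (n : ℝ) ^ (a / 2) := by positivity
      nlinarith
    have hpa : 1 ≤ (n : ℝ) ^ (a / 2) := Real.one_le_rpow hn1 (by rw [ha]; positivity)
    have hstep : ∑ d ∈ D, (rc s n (k + 1 + 1) d : ℝ) ^ 2 = ∑ d ∈ D, (∑ i ∈ range n, (rc s n (k + 1) (d - s i) : ℝ)) ^ 2 := by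
      apply sum_congr rfl
      intro d _
      congr 1
      rw [← Nat.cast_sum]
      rfl
    rw [hstep]
    have hPT : 4 * (T : ℝ) ^ 2 * (500 * K * (Nat.log 2 n + 1)) ≤ P := by
      rw [hP]
      gcongr
    have e4 : (n : ℝ) ^ (2 * (k + 1)) = (n : ℝ) * ((n : ℝ) ^ (k + 1)) * (n : ℝ) ^ k := by
      rw [mul_comm 2, pow_mul, pow_succ]
      ring
    have e5 : ((n : ℝ) ^ (k + 1)) ^ 2 = (n : ℝ) ^ (2 * (k + 1)) := by rw [← pow_mul, mul_comm]
    have hX0 : 0 ≤ (n : ℝ) ^ (2 * (k + 1)) := by positivity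
    calc _ ≤ 4 * (T : ℝ) ^ 2 * (500 * K * (Nat.log 2 n + 1)) * (n * ((n : ℝ) ^ (k + 1) *
          √(G ^ 2 * ((n : ℝ) ^ (2 * k) * ((n : ℝ) ^ a + Γ)))) + Γ * ((n : ℝ) ^ (k + 1)) ^ 2) := hmain
      _ ≤ P * (n * ((n : ℝ) ^ (k + 1) * (G * ((n : ℝ) ^ k * ((n : ℝ) ^ (a / 2) + (Γ + 1))))) +
          Γ * ((n : ℝ) ^ (k + 1)) ^ 2) := by gcongr
      _ = P * ((n : ℝ) ^ (2 * (k + 1)) * (G * ((n : ℝ) ^ (a / 2) + (Γ + 1)) + Γ)) := by
          rw [e5, e4]; ring
      _ ≤ P * ((n : ℝ) ^ (2 * (k + 1)) * (G * (2 * (n : ℝ) ^ (a / 2) + Γ) + G * Γ)) := by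
          have e6 : Γ ≤ G * Γ := le_mul_of_one_le_left hΓ0 hG1
          apply mul_le_mul_of_nonneg_left _ hP0
          apply mul_le_mul_of_nonneg_left _ hX0
          apply add_le_add _ e6
          apply mul_le_mul_of_nonneg_left _ (by linarith)
          linarith
      _ = (2 * P) * G * ((n : ℝ) ^ (2 * (k + 1)) * ((n : ℝ) ^ (a / 2) + Γ)) := by ring
      _ ≤ G * G * ((n : ℝ) ^ (2 * (k + 1)) * ((n : ℝ) ^ (a / 2) + Γ)) := by gcongr
      _ = _ := by ring

end Pool.Agent.K7.H49.CX
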