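import Mathlib
import Pool.Agent.K7.H49.CX.EnC
import Pool.Agent.K7.H49.SM.Fam

/-! Families near convex functions: the additive energy is nearly minimal, and the number of exceptional members
in Goldbach's problem (helper49). -/

set_option autoImplicit false

namespace Pool.Agent.K7.H49.CX

open Finset
open Pool.Agent.H560R3.GB (energy)

/-- the additive energy of a family indexed by a finite set -/
def enJ (h : ℕ) (J : Finset ℕ) (s : ℕ → ℤ) : ℕ :=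
  (((Fintype.piFinset fun _ : Fin h => J) ×ˢ (Fintype.piFinset fun _ : Fin h => J)).filter
    (fun q => ∑ i, s (q.1 i) = ∑ i, s (q.2 i))).card

lemma enJ_map (h : ℕ) (J J' : Finset ℕ) (s s' : ℕ → ℤ) (φ : ℕ → ℕ) (c κ : ℤ) (hκ : κ ≠ 0) (hφ : ∀ m ∈ J, φ m ∈ J')
    (hinj : ∀ m ∈ J, ∀ n ∈ J, φ m = φ n → m = n) (hs : ∀ m ∈ J, s m = c + κ * s' (φ m)) :
    enJ h J s ≤ enJ h J' s' := by
  classical
  unfold enJ
  apply card_le_card_of_injOn (fun q => (fun i => φ (q.1 i), fun i => φ (q.2 i)))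
  · intro q hq
    rw [mem_coe, mem_filter, mem_product, Fintype.mem_piFinset, Fintype.mem_piFinset] at hq
    obtain ⟨⟨h1, h2⟩, h3⟩ := hq
    rw [mem_coe, mem_filter, mem_product, Fintype.mem_piFinset, Fintype.mem_piFinset]
    refine ⟨⟨fun i => hφ _ (h1 i), fun i => hφ _ (h2 i)⟩, ?_⟩
    rw [sum_congr rfl fun i _ => hs _ (h1 i), sum_congr rfl fun i _ => hs _ (h2 i), sum_add_distrib,
      sum_add_distrib, ← mul_sum, ← mul_sum] at h3
    exact mul_left_cancel₀ hκ (add_left_cancel h3)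
  · intro q hq q' hq' he
    rw [mem_coe, mem_filter, mem_product, Fintype.mem_piFinset, Fintype.mem_piFinset] at hq hq'
    simp only [Prod.mk.injEq] at he
    ext i
    · exact hinj _ (hq.1.1 i) _ (hq'.1.1 i) (congrFun he.1 i)
    · exact hinj _ (hq.1.2 i) _ (hq'.1.2 i) (congrFun he.2 i)

lemma energy_eq_enJ (h x : ℕ) (b : ℕ → ℕ) : energy h x b = enJ h (Icc 1 x) (fun m => (b m : ℤ)) := by
  unfold energy enJ
  congr 1
  apply filter_congr
  intro q _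
  constructor
  · intro h1
    have h2 : ((∑ i, b (q.1 i) : ℕ) : ℤ) = ((∑ i, b (q.2 i) : ℕ) : ℤ) := by rw [h1]
    push_cast at h2
    exact h2
  · intro h1
    have h2 : ((∑ i, b (q.1 i) : ℕ) : ℤ) = ((∑ i, b (q.2 i) : ℕ) : ℤ) := by
      push_cast
      exact h1
    exact_mod_cast h2

/-- the energy through the numbers of representations -/
lemma enJ_rc (h n : ℕ) (s : ℕ → ℤ) (Z : ℝ) (hZ : ∀ D : Finset ℤ, ∑ d ∈ D, (rc s n h d : ℝ) ^ 2 ≤ Z) :
    (enJ h (range n) s : ℝ) ≤ Z := by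
  classical
  obtain ⟨D, hD⟩ : ∃ D : Finset ℤ, D = (Fintype.piFinset fun _ : Fin h => range n).image (fun v => ∑ i, s (v i)) := ⟨_, rfl⟩
  refine le_trans (le_of_eq ?_) (hZ D)
  unfold enJ
  rw [card_eq_sum_card_fiberwise (f := fun q => ∑ i, s (q.1 i)) (t := D)]
  · push_cast
    apply sum_congr rfl
    intro d _
    rw [← rc_eq s n h d, sq, ← Nat.cast_mul, ← card_product]
    congr 2
    ext q
    simp only [mem_filter, mem_product]
    constructor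
    · rintro ⟨⟨⟨h1, h2⟩, h3⟩, h4⟩
      exact ⟨⟨h1, h4⟩, h2, by rw [← h3]; exact h4⟩
    · rintro ⟨⟨h1, h4⟩, h2, h5⟩
      exact ⟨⟨⟨h1, h2⟩, by rw [h4, h5]⟩, h4⟩
  · intro q hq
    rw [hD]
    exact mem_image_of_mem _ (mem_product.1 (mem_filter.1 (mem_coe.1 hq)).1).1

/-- the numbers on which a sequence increases at a given rate at least -/
noncomputable def up (f : ℕ → ℝ) (x : ℕ) (σ : ℝ) : Finset ℕ := by
  classical
  exact (Icc 1 x).filter (fun m => m + 1 ≤ x ∧ σ ≤ f (m + 1) - f m)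

lemma mem_up {f : ℕ → ℝ} {x : ℕ} {σ : ℝ} {m : ℕ} : m ∈ up f x σ ↔ 1 ≤ m ∧ m + 1 ≤ x ∧ σ ≤ f (m + 1) - f m := by
  classical
  unfold up
  rw [mem_filter, mem_Icc]
  constructor
  · rintro ⟨⟨h1, -⟩, h2, h3⟩
    exact ⟨h1, h2, h3⟩
  · rintro ⟨h1, h2, h3⟩
    exact ⟨⟨h1, by omega⟩, h2, h3⟩

lemma log2_le {n N : ℕ} (hn : 1 ≤ n) (hnN : n ≤ N) (hL : 2 ≤ Real.log N) : (Nat.log 2 n : ℝ) + 1 ≤ 2 * Real.log N := by
  have h1 : 2 ^ Nat.log 2 n ≤ n := Nat.pow_log_le_self 2 (by omega)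
  have h2 : ((2 : ℝ) ^ Nat.log 2 n) ≤ N := by exact_mod_cast h1.trans hnN
  have h3 : (Nat.log 2 n : ℝ) * Real.log 2 ≤ Real.log N := by
    rw [← Real.log_pow]
    exact Real.log_le_log (by positivity) h2
  have h4 := Real.log_two_gt_d9
  have h5 : (0 : ℝ) ≤ Nat.log 2 n := Nat.cast_nonneg _
  nlinarith

/-- the energy of the increasing part -/
theorem core_up (C U : ℕ) (η : ℝ) (hη : 0 < η) : ∃ h D N₀ : ℕ, 1 ≤ h ∧ ∀ N : ℕ, N₀ ≤ N → ∀ x : ℕ,
    (N : ℝ) ^ (1 / 2 + η) ≤ x → x ≤ N → ∀ (f : ℕ → ℝ) (s : ℕ → ℤ),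
    (∀ m ∈ Icc 1 x, |(s m : ℝ) - f m| ≤ Real.log N ^ C) →
    (∀ m, 1 ≤ m → m + 2 ≤ x → (N : ℝ) / ((x : ℝ) ^ 2 * Real.log N ^ C) ≤ f (m + 2) - 2 * f (m + 1) + f m) →
    (enJ h (up f x (1 / Real.log N ^ U)) s : ℝ) * N ≤ Real.log N ^ D * (x : ℝ) ^ (2 * h) := by
  classical
  obtain ⟨k, hk⟩ : ∃ k : ℕ, (1 / 2 : ℝ) ^ k < 2 * η / (1 / 2 + η) := exists_pow_lt_of_lt_one (by positivity) (by norm_num)
  obtain ⟨n1, hn1⟩ := SM.ev_log (32000 * ((k : ℝ) + 1) ^ 2 + 10)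
  refine ⟨k + 1, 2 * (C + U + 5) + (3 * C + U + 4), max n1 2, by omega, ?_⟩
  intro N hN x hx hxN f s hnear hsec
  have hL := hn1 N (le_trans (le_max_left _ _) hN)
  have hN2 : 2 ≤ N := le_trans (le_max_right _ _) hN
  obtain ⟨L, hLd⟩ : ∃ L, L = Real.log (N : ℝ) := ⟨_, rfl⟩
  rw [← hLd] at hL hnear hsec ⊢
  have hk0 : 0 ≤ 32000 * ((k : ℝ) + 1) ^ 2 := by positivity
  have hL10 : 10 ≤ L := by linarith
  have hL1 : 1 ≤ L := by linarith
  have hL0 : 0 < L := by linarith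
  have hN0 : (0 : ℝ) < N := by exact_mod_cast (by omega : 0 < N)
  have hN1 : (1 : ℝ) ≤ N := by exact_mod_cast (by omega : 1 ≤ N)
  have hx0 : (0 : ℝ) < x := lt_of_lt_of_le (by positivity) hx
  have hx1 : 1 ≤ x := by exact_mod_cast hx0
  have hx1r : (1 : ℝ) ≤ x := by exact_mod_cast hx1
  obtain ⟨σ, hσ⟩ : ∃ σ : ℝ, σ = 1 / L ^ U := ⟨_, rfl⟩
  obtain ⟨lam, hlam⟩ : ∃ lam : ℝ, lam = N / ((x : ℝ) ^ 2 * L ^ C) := ⟨_, rfl⟩
  rw [← hσ]
  rw [← hlam] at hsec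
  have hσ0 : 0 < σ := by rw [hσ]; positivity
  have hlam0 : 0 < lam := by rw [hlam]; positivity
  rcases (up f x σ).eq_empty_or_nonempty with hJ | hJ
  · have h0 : enJ (k + 1) (up f x σ) s = 0 := by
      rw [hJ]
      unfold enJ
      rw [card_eq_zero, filter_eq_empty_iff]
      intro q hq
      have h1 := (mem_product.1 hq).1
      rw [Fintype.mem_piFinset] at h1
      exact absurd (h1 0) (notMem_empty _)
    rw [h0]
    simp only [Nat.cast_zero, zero_mul]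
    positivity
  obtain ⟨a, ha⟩ : ∃ a, a = (up f x σ).min' hJ := ⟨_, rfl⟩
  have haJ : a ∈ up f x σ := by rw [ha]; exact min'_mem _ _
  obtain ⟨ha1, ha2, ha3⟩ := mem_up.1 haJ
  obtain ⟨n, hn⟩ : ∃ n, n = x - a := ⟨_, rfl⟩
  have hn1 : 1 ≤ n := by omega
  have hnx : n ≤ x := by omega
  have hanx : a + n = x := by omega
  -- slopes
  have hsl : ∀ i, a + i + 1 ≤ x → σ ≤ f (a + i + 1) - f (a + i) := by
    intro i
    induction i with
    | zero => intro _; exact ha3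
    | succ i ih =>
      intro hi
      have h1 := ih (by omega)
      have h2 := hsec (a + i) (by omega) (by omega)
      have e : a + (i + 1) = a + i + 1 := by ring
      rw [e]
      linarith
  have hcx : Cx n (fun i => f (a + i)) (fun i => s (a + i)) (L ^ C) σ lam := by
    refine ⟨fun i hi => ?_, fun i hi => ?_, fun i hi => ?_⟩
    · exact hnear (a + i) (by rw [mem_Icc]; omega)
    · have := hsl i (by omega)
      exact this
    · have := hsec (a + i) (by omega) (by omega)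
      exact this
  have hK1 : 1 ≤ L ^ C := one_le_pow₀ hL1
  have hen : enJ (k + 1) (up f x σ) s ≤ enJ (k + 1) (range n) (fun i => s (a + i)) := by
    apply enJ_map (k + 1) _ _ s (fun i => s (a + i)) (fun m => m - a) 0 1 one_ne_zero
    · intro m hm
      have h1 : a ≤ m := by rw [ha]; exact min'_le _ _ hm
      have h2 := (mem_up.1 hm).2.1
      rw [mem_range]
      omega
    · intro m hm m' hm' h
      have h1 : a ≤ m := by rw [ha]; exact min'_le _ _ hm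
      have h2 : a ≤ m' := by rw [ha]; exact min'_le _ _ hm'
      omega
    · intro m hm
      have h1 : a ≤ m := by rw [ha]; exact min'_le _ _ hm
      have e : a + (m - a) = m := by omega
      simp only [e]
      ring
  obtain ⟨M, hM⟩ : ∃ M : ℝ, M = L ^ (C + U + 1) := ⟨_, rfl⟩
  have hM0 : 0 ≤ M := by rw [hM]; positivity
  have hM' : 2 * L ^ C / σ + 1 ≤ M := by
    rw [hσ, hM]
    have e : 2 * L ^ C / (1 / L ^ U) = 2 * L ^ (C + U) := by
      rw [div_div_eq_mul_div, div_one, pow_add]; ring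
    rw [e]
    have h1 : 1 ≤ L ^ (C + U) := one_le_pow₀ hL1
    calc 2 * L ^ (C + U) + 1 ≤ 3 * L ^ (C + U) := by linarith
      _ ≤ L * L ^ (C + U) := by gcongr; linarith
      _ = _ := by rw [pow_succ]; ring
  have hlog2 : (Nat.log 2 n : ℝ) + 1 ≤ 2 * L := by
    rw [hLd]
    exact log2_le hn1 (hnx.trans hxN) (by rw [← hLd]; linarith)
  obtain ⟨G, hG⟩ : ∃ G : ℝ, G = L ^ (C + U + 5) := ⟨_, rfl⟩
  have hG0 : 0 ≤ G := by rw [hG]; positivity
  have hG' : 2 * (4 * (((k + 1 : ℕ) : ℝ) * (Nat.log 2 n + 1)) ^ 2 * (500 * L ^ C * (Nat.log 2 n + 1))) + M ≤ G := by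
    have e1 : ((k + 1 : ℕ) : ℝ) = k + 1 := by push_cast; ring
    rw [e1]
    calc _ ≤ 2 * (4 * (((k : ℝ) + 1) * (2 * L)) ^ 2 * (500 * L ^ C * (2 * L))) + M := by gcongr
      _ = (32000 * ((k : ℝ) + 1) ^ 2) * L ^ (C + 3) + L ^ (C + U + 1) := by rw [hM]; ring
      _ ≤ L * L ^ (C + 3) + L ^ (C + U + 1) := by gcongr; linarith
      _ = L ^ (C + 4) + L ^ (C + U + 1) := by ring
      _ ≤ L ^ (C + U + 4) + L ^ (C + U + 4) :=
          add_le_add (pow_le_pow_right₀ hL1 (by omega)) (pow_le_pow_right₀ hL1 (by omega))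
      _ = 2 * L ^ (C + U + 4) := by ring
      _ ≤ L * L ^ (C + U + 4) := by gcongr; linarith
      _ = _ := by rw [hG]; ring
  have hrc := fun D => energy_rc hcx hK1 hσ0 hlam0 hn1 M hM' (k + 1) G hG' k le_rfl D
  have hfin := enJ_rc (k + 1) n (fun i => s (a + i)) _ hrc
  have hnr : (n : ℝ) ≤ x := by exact_mod_cast hnx
  have hn0 : (0 : ℝ) < n := by exact_mod_cast hn1
  have hlogn : 1 + Real.log n ≤ 2 * L := by
    have : Real.log n ≤ L := by
      rw [hLd]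
      exact Real.log_le_log hn0 (by exact_mod_cast hnx.trans hxN)
    linarith
  -- the two terms
  have ht1 : (n : ℝ) ^ ((1 / 2 : ℝ) ^ k) * N ≤ (x : ℝ) ^ 2 := by
    obtain ⟨b, hb⟩ : ∃ b : ℝ, b = (1 / 2 : ℝ) ^ k := ⟨_, rfl⟩
    rw [← hb] at hk ⊢
    have hb0 : 0 < b := by rw [hb]; positivity
    have hb1 : b ≤ 1 := by rw [hb]; exact pow_le_one₀ (by norm_num) (by norm_num)
    rw [lt_div_iff₀ (by positivity)] at hk
    have h1 : (N : ℝ) ≤ (x : ℝ) ^ (2 - b) := by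
      calc (N : ℝ) = (N : ℝ) ^ (1 : ℝ) := (Real.rpow_one _).symm
        _ ≤ (N : ℝ) ^ ((1 / 2 + η) * (2 - b)) := Real.rpow_le_rpow_of_exponent_le hN1 (by nlinarith)
        _ = ((N : ℝ) ^ (1 / 2 + η)) ^ (2 - b) := Real.rpow_mul hN0.le _ _
        _ ≤ (x : ℝ) ^ (2 - b) := Real.rpow_le_rpow (by positivity) hx (by linarith)
    calc (n : ℝ) ^ b * N ≤ (x : ℝ) ^ b * (x : ℝ) ^ (2 - b) := by gcongr
      _ = (x : ℝ) ^ (2 : ℝ) := by
          rw [← Real.rpow_add hx0]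
          congr 1
          ring
      _ = (x : ℝ) ^ 2 := by norm_num
  have ht2 : M * (4 * L ^ C / lam * (1 + Real.log n)) * N ≤ L ^ (3 * C + U + 3) * (x : ℝ) ^ 2 := by
    have hlogn0 : 0 ≤ Real.log n := Real.log_nonneg (by exact_mod_cast hn1)
    calc M * (4 * L ^ C / lam * (1 + Real.log n)) * N ≤ M * (4 * L ^ C / lam * (2 * L)) * N := by
          gcongr
      _ = 8 * L ^ (3 * C + U + 2) * (x : ℝ) ^ 2 := by
          rw [hM, hlam]
          field_simp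
          ring
      _ ≤ L * L ^ (3 * C + U + 2) * (x : ℝ) ^ 2 := by gcongr; linarith
      _ = _ := by ring
  calc (enJ (k + 1) (up f x σ) s : ℝ) * N ≤ (enJ (k + 1) (range n) (fun i => s (a + i)) : ℝ) * N := by
        gcongr
    _ ≤ (G ^ 2 * ((n : ℝ) ^ (2 * k) * ((n : ℝ) ^ ((1 / 2 : ℝ) ^ k) + M * (4 * L ^ C / lam * (1 + Real.log n))))) * N := by
        gcongr
    _ = G ^ 2 * (n : ℝ) ^ (2 * k) * ((n : ℝ) ^ ((1 / 2 : ℝ) ^ k) * N +
        M * (4 * L ^ C / lam * (1 + Real.log n)) * N) := by ring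
    _ ≤ G ^ 2 * (x : ℝ) ^ (2 * k) * ((x : ℝ) ^ 2 + L ^ (3 * C + U + 3) * (x : ℝ) ^ 2) := by gcongr
    _ = G ^ 2 * (1 + L ^ (3 * C + U + 3)) * (x : ℝ) ^ (2 * (k + 1)) := by ring
    _ ≤ G ^ 2 * (L * L ^ (3 * C + U + 3)) * (x : ℝ) ^ (2 * (k + 1)) := by
        have h1 : 1 ≤ L ^ (3 * C + U + 3) := one_le_pow₀ hL1
        gcongr
        nlinarith
    _ = _ := by rw [hG]; ring

end Pool.Agent.K7.H49.CX
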