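import Mathlib
import Pool.Agent.K7.H49.CX.Fam

/-! Families near convex functions: the number of exceptional members in Goldbach's problem (helper49). -/

set_option autoImplicit false

namespace Pool.Agent.K7.H49.CX

open Finset
open Pool.Agent.H560R3.GB (energy)

/-- the family `t` on `{1, ..., x}` is within `W` of a function whose second differences are all at least
`lam`, or all at most `-lam` -/
def NearCx (x : ℕ) (f : ℕ → ℝ) (t : ℕ → ℕ) (W lam : ℝ) : Prop :=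
  (∀ m ∈ Icc 1 x, |(t m : ℝ) - f m| ≤ W) ∧
  ((∀ m, 1 ≤ m → m + 2 ≤ x → lam ≤ f (m + 2) - 2 * f (m + 1) + f m) ∨
    (∀ m, 1 ≤ m → m + 2 ≤ x → f (m + 2) - 2 * f (m + 1) + f m ≤ -lam))

/-- the part on which the slopes are small -/
lemma flat (f : ℕ → ℝ) (x : ℕ) (σ lam : ℝ) (hlam : 0 < lam) (hσ : 0 < σ)
    (hsec : ∀ m, 1 ≤ m → m + 2 ≤ x → lam ≤ f (m + 2) - 2 * f (m + 1) + f m) :
    (((Icc 1 x).filter (fun m => m ∉ up f x σ ∧ x + 1 - m ∉ up (fun m => f (x + 1 - m)) x σ)).card : ℝ) ≤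
      2 * σ / lam + 3 := by
  classical
  obtain ⟨F, hF⟩ : ∃ F, F = (Icc 1 x).filter (fun m => m + 1 ≤ x ∧ |f (m + 1) - f m| < σ) := ⟨_, rfl⟩
  have hsub : (Icc 1 x).filter (fun m => m ∉ up f x σ ∧ x + 1 - m ∉ up (fun m => f (x + 1 - m)) x σ) ⊆ F ∪ {1, x} := by
    intro m hm
    rw [mem_filter, mem_Icc] at hm
    obtain ⟨⟨h1, h2⟩, h3, h4⟩ := hm
    rw [mem_union, mem_insert, mem_singleton]
    by_cases hm1 : m = 1
    · exact Or.inr (Or.inl hm1)
    by_cases hmx : m = x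
    · exact Or.inr (Or.inr hmx)
    left
    rw [hF, mem_filter, mem_Icc]
    refine ⟨⟨h1, h2⟩, by omega, ?_⟩
    rw [abs_lt]
    constructor
    · by_contra hcon
      push Not at hcon
      apply h4
      rw [mem_up]
      refine ⟨by omega, by omega, ?_⟩
      have e1 : x + 1 - (x + 1 - m + 1) = m - 1 := by omega
      have e2 : x + 1 - (x + 1 - m) = m := by omega
      rw [e1, e2]
      have h5 := hsec (m - 1) (by omega) (by omega)
      have e3 : m - 1 + 2 = m + 1 := by omega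
      have e4 : m - 1 + 1 = m := by omega
      rw [e3, e4] at h5
      linarith
    · by_contra hcon
      push Not at hcon
      exact h3 (mem_up.2 ⟨h1, by omega, hcon⟩)
  have hslope : ∀ i k, 1 ≤ i → i + k + 1 ≤ x → lam * k ≤ (f (i + k + 1) - f (i + k)) - (f (i + 1) - f i) := by
    intro i k hi
    induction k with
    | zero => intro _; simp
    | succ k ih =>
      intro hk
      have h1 := ih (by omega)
      have h2 := hsec (i + k) (by omega) (by omega)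
      push_cast
      have e : i + (k + 1) = i + k + 1 := by ring
      have e2 : i + (k + 1) + 1 = i + k + 2 := by ring
      rw [e2, e]
      linarith
  have hFc : (F.card : ℝ) ≤ 2 * σ / lam + 1 := by
    apply card_le_of_diam _ _ (by positivity)
    intro i hi j hj hij
    rw [hF, mem_filter, mem_Icc] at hi hj
    obtain ⟨k, rfl⟩ := Nat.exists_eq_add_of_le hij
    have h1 := hslope i k hi.1.1 hj.2.1
    have h2 := abs_lt.1 hi.2.2
    have h3 := abs_lt.1 hj.2.2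
    rw [le_div_iff₀ hlam]
    push_cast
    nlinarith [h2.1, h2.2, h3.1, h3.2]
  have h1 : (((Icc 1 x).filter (fun m => m ∉ up f x σ ∧ x + 1 - m ∉ up (fun m => f (x + 1 - m)) x σ)).card : ℝ) ≤
      F.card + 2 := by
    have h2 := (card_le_card hsub).trans (card_union_le F {1, x})
    have h3 : ({1, x} : Finset ℕ).card ≤ 2 := card_le_two
    exact_mod_cast h2.trans (Nat.add_le_add_left h3 _)
  linarith

/-- two parts of nearly minimal energy make up almost everything: the convex case -/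
lemma parts_aux (C U : ℕ) (η : ℝ) (hη : 0 < η) : ∃ h D N₀ : ℕ, 1 ≤ h ∧ ∀ N : ℕ, N₀ ≤ N → ∀ x : ℕ,
    (N : ℝ) ^ (1 / 2 + η) ≤ x → x ≤ N → ∀ (f : ℕ → ℝ) (s : ℕ → ℤ),
    (∀ m ∈ Icc 1 x, |(s m : ℝ) - f m| ≤ Real.log N ^ C) →
    (∀ m, 1 ≤ m → m + 2 ≤ x → (N : ℝ) / ((x : ℝ) ^ 2 * Real.log N ^ C) ≤ f (m + 2) - 2 * f (m + 1) + f m) →
    ∃ J₁ ⊆ Icc 1 x, ∃ J₂ ⊆ Icc 1 x,
      (((Icc 1 x).filter (fun m => m ∉ J₁ ∧ m ∉ J₂)).card : ℝ) ≤ x / Real.log N ^ U ∧
      (enJ h J₁ s : ℝ) * N ≤ Real.log N ^ D * (x : ℝ) ^ (2 * h) ∧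
      (enJ h J₂ s : ℝ) * N ≤ Real.log N ^ D * (x : ℝ) ^ (2 * h) := by
  classical
  obtain ⟨h, D, n1, hh, hcore⟩ := core_up C (C + U + 1) η hη
  obtain ⟨n2, hn2⟩ := SM.ev_log 10
  obtain ⟨n3, hn3⟩ := Pool.Agent.H373R2.T7.ev_log' (U + 1) 3
  refine ⟨h, D, max n1 (max n2 (max n3 2)), hh, ?_⟩
  intro N hN x hx hxN f s hnear hsec
  have hNn1 : n1 ≤ N := le_trans (le_max_left _ _) hN
  have hL10 := hn2 N (le_trans (le_trans (le_max_left _ _) (le_max_right _ _)) hN)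
  have hN' : max n3 2 ≤ N := le_trans (le_trans (le_max_right _ _) (le_max_right _ _)) hN
  have hLx := hn3 N (le_trans (le_max_left _ _) hN')
  have hN2 : 2 ≤ N := le_trans (le_max_right _ _) hN'
  have hc1 := hcore N hNn1 x hx hxN f s hnear hsec
  have hf2 : ∀ m, 1 ≤ m → m + 2 ≤ x → (N : ℝ) / ((x : ℝ) ^ 2 * Real.log N ^ C) ≤
      (fun m => f (x + 1 - m)) (m + 2) - 2 * (fun m => f (x + 1 - m)) (m + 1) + (fun m => f (x + 1 - m)) m := by
    intro m hm1 hm2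
    have h1 := hsec (x + 1 - (m + 2)) (by omega) (by omega)
    have e1 : x + 1 - (m + 2) + 2 = x + 1 - m := by omega
    have e2 : x + 1 - (m + 2) + 1 = x + 1 - (m + 1) := by omega
    rw [e1, e2] at h1
    simp only
    linarith
  have hnear2 : ∀ m ∈ Icc 1 x, |(((fun m => s (x + 1 - m)) m : ℤ) : ℝ) - (fun m => f (x + 1 - m)) m| ≤ Real.log N ^ C := by
    intro m hm
    rw [mem_Icc] at hm
    exact hnear (x + 1 - m) (by rw [mem_Icc]; omega)
  have hc2 := hcore N hNn1 x hx hxN (fun m => f (x + 1 - m)) (fun m => s (x + 1 - m)) hnear2 hf2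
  obtain ⟨L, hLd⟩ : ∃ L, L = Real.log (N : ℝ) := ⟨_, rfl⟩
  rw [← hLd] at hL10 hLx hc1 hc2 hsec ⊢
  have hL1 : 1 ≤ L := by linarith
  have hL0 : 0 < L := by linarith
  have hN0 : (0 : ℝ) < N := by exact_mod_cast (by omega : 0 < N)
  have hN1 : (1 : ℝ) ≤ N := by exact_mod_cast (by omega : 1 ≤ N)
  have hx0 : (0 : ℝ) < x := lt_of_lt_of_le (by positivity) hx
  have hxNr : (x : ℝ) ≤ N := by exact_mod_cast hxN
  have hflat := flat f x (1 / L ^ (C + U + 1)) (N / ((x : ℝ) ^ 2 * L ^ C)) (by positivity) (by positivity) hsec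
  refine ⟨up f x (1 / L ^ (C + U + 1)), ?_, (Icc 1 x).filter (fun m => x + 1 - m ∈ up (fun m => f (x + 1 - m)) x (1 / L ^ (C + U + 1))),
    filter_subset _ _, ?_, hc1, ?_⟩
  · intro m hm
    have := mem_up.1 hm
    rw [mem_Icc]
    omega
  · have e : (Icc 1 x).filter (fun m => m ∉ up f x (1 / L ^ (C + U + 1)) ∧
        m ∉ (Icc 1 x).filter (fun m => x + 1 - m ∈ up (fun m => f (x + 1 - m)) x (1 / L ^ (C + U + 1)))) =
        (Icc 1 x).filter (fun m => m ∉ up f x (1 / L ^ (C + U + 1)) ∧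
          x + 1 - m ∉ up (fun m => f (x + 1 - m)) x (1 / L ^ (C + U + 1))) := by
      apply filter_congr
      intro m hm
      simp only [mem_filter, hm, true_and]
    rw [e]
    refine hflat.trans ?_
    have h1 : 2 * (1 / L ^ (C + U + 1)) / (N / ((x : ℝ) ^ 2 * L ^ C)) = 2 * (x : ℝ) ^ 2 / (N * L ^ (U + 1)) := by
      have e1 : L ^ (C + U + 1) = L ^ C * L ^ (U + 1) := by rw [← pow_add]; congr 1
      rw [e1]
      field_simp
    rw [h1]
    have h2 : 2 * (x : ℝ) ^ 2 / (N * L ^ (U + 1)) ≤ 2 * x / L ^ (U + 1) := by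
      rw [div_le_div_iff₀ (by positivity) (by positivity)]
      have : 0 ≤ 2 * x * L ^ (U + 1) * ((N : ℝ) - x) := mul_nonneg (by positivity) (by linarith)
      nlinarith
    have h3 : (3 : ℝ) ≤ x / L ^ (U + 1) := by
      rw [le_div_iff₀ (by positivity)]
      refine hLx.trans ?_
      rw [Real.sqrt_eq_rpow]
      refine le_trans ?_ hx
      exact Real.rpow_le_rpow_of_exponent_le hN1 (by linarith)
    calc 2 * (x : ℝ) ^ 2 / (N * L ^ (U + 1)) + 3 ≤ 2 * x / L ^ (U + 1) + x / L ^ (U + 1) := by linarith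
      _ = 3 * x / (L * L ^ U) := by rw [pow_succ]; ring
      _ ≤ L * x / (L * L ^ U) := by gcongr; linarith
      _ = x / L ^ U := by
          rw [mul_div_mul_left _ _ hL0.ne']
  · refine le_trans ?_ hc2
    apply mul_le_mul_of_nonneg_right _ hN0.le
    rw [Nat.cast_le]
    apply enJ_map h _ _ s (fun m => s (x + 1 - m)) (fun m => x + 1 - m) 0 1 one_ne_zero
    · intro m hm
      exact (mem_filter.1 hm).2
    · intro m hm n hn h
      have h1 := mem_Icc.1 (mem_filter.1 hm).1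
      have h2 := mem_Icc.1 (mem_filter.1 hn).1
      omega
    · intro m hm
      have h1 := mem_Icc.1 (mem_filter.1 hm).1
      have e : x + 1 - (x + 1 - m) = m := by omega
      simp only [e]
      ring

/-- two parts of nearly minimal energy make up almost everything -/
theorem parts (C U : ℕ) (η : ℝ) (hη : 0 < η) : ∃ h D N₀ : ℕ, 1 ≤ h ∧ ∀ N : ℕ, N₀ ≤ N → ∀ x : ℕ,
    (N : ℝ) ^ (1 / 2 + η) ≤ x → x ≤ N → ∀ (f : ℕ → ℝ) (t : ℕ → ℕ),
    NearCx x f t (Real.log N ^ C) (N / ((x : ℝ) ^ 2 * Real.log N ^ C)) →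
    ∃ J₁ ⊆ Icc 1 x, ∃ J₂ ⊆ Icc 1 x,
      (((Icc 1 x).filter (fun m => m ∉ J₁ ∧ m ∉ J₂)).card : ℝ) ≤ x / Real.log N ^ U ∧
      (enJ h J₁ (fun m => (t m : ℤ)) : ℝ) * N ≤ Real.log N ^ D * (x : ℝ) ^ (2 * h) ∧
      (enJ h J₂ (fun m => (t m : ℤ)) : ℝ) * N ≤ Real.log N ^ D * (x : ℝ) ^ (2 * h) := by
  classical
  obtain ⟨h, D, N₀, hh, haux⟩ := parts_aux C U η hη
  refine ⟨h, D, N₀, hh, fun N hN x hx hxN f t hf => ?_⟩
  obtain ⟨hnear, hsec | hsec⟩ := hf
  · exact haux N hN x hx hxN f (fun m => (t m : ℤ)) (fun m hm => by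
      have := hnear m hm
      push_cast
      exact this) hsec
  · have h1 := haux N hN x hx hxN (fun m => - f m) (fun m => -(t m : ℤ)) (fun m hm => by
      have := hnear m hm
      push_cast
      rw [← abs_neg]
      have e : -(-(t m : ℝ) - -f m) = t m - f m := by ring
      rw [e]
      exact this) (fun m h1 h2 => by
        have := hsec m h1 h2
        linarith)
    obtain ⟨J₁, hJ₁, J₂, hJ₂, h3, h4, h5⟩ := h1
    have hen : ∀ J : Finset ℕ, enJ h J (fun m => (t m : ℤ)) ≤ enJ h J (fun m => -(t m : ℤ)) := by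
      intro J
      apply enJ_map h J J _ _ (fun m => m) 0 (-1) (by norm_num)
      · intro m hm; exact hm
      · intro m _ n _ h; exact h
      · intro m _; ring
    refine ⟨J₁, hJ₁, J₂, hJ₂, h3, le_trans ?_ h4, le_trans ?_ h5⟩
    · have := hen J₁
      gcongr
    · have := hen J₂
      gcongr

/-- few exceptional members in a family of small energy indexed by a finite set -/
theorem few (h D U : ℕ) (hh : 1 ≤ h) (ε : ℝ) (hε : 0 < ε) : ∃ N₀ : ℕ, ∀ N : ℕ, N₀ ≤ N →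
    ∀ (x : ℕ) (J : Finset ℕ) (t : ℕ → ℕ), J.card ≤ x → (∀ m ∈ J, t m ≤ N) →
    (enJ h J (fun m => (t m : ℤ)) : ℝ) * N ≤ Real.log N ^ D * (x : ℝ) ^ (2 * h) →
    ∀ T ⊆ J, (∀ m ∈ T, 2 ∣ t m ∧ ¬ Pool.Agent.W93.GB.Good ε (t m)) → (T.card : ℝ) ≤ x / Real.log N ^ U := by
  classical
  obtain ⟨N₀, hfam⟩ := Pool.Agent.W93.GB.fam h 1 (D + U * (2 * h)) U hh ε hε
  obtain ⟨n2, hn2⟩ := SM.ev_log 1
  refine ⟨max N₀ n2, fun N hN x J t hJx htN hE T hT hTb => ?_⟩
  have hL1 := hn2 N (le_trans (le_max_right _ _) hN)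
  obtain ⟨L, hLd⟩ : ∃ L, L = Real.log (N : ℝ) := ⟨_, rfl⟩
  rw [← hLd] at hL1 hE ⊢
  have hL0 : 0 < L := by linarith
  have hJxr : (J.card : ℝ) ≤ x := by exact_mod_cast hJx
  obtain ⟨V, hV⟩ : ∃ V, V = J.filter (fun m => 2 ∣ t m) := ⟨_, rfl⟩
  have hVJ : V ⊆ J := by rw [hV]; exact filter_subset _ _
  have hTV : T ⊆ V := by
    intro l hl
    rw [hV, mem_filter]
    exact ⟨hT hl, (hTb l hl).1⟩
  have hTVc : (T.card : ℝ) ≤ V.card := by exact_mod_cast card_le_card hTV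
  have hVJc : (V.card : ℝ) ≤ J.card := by exact_mod_cast card_le_card hVJ
  by_cases hsmall : (V.card : ℝ) ≤ x / L ^ U
  · exact hTVc.trans hsmall
  push Not at hsmall
  rw [div_lt_iff₀ (by positivity)] at hsmall
  obtain ⟨e, he1, he2, he3⟩ := SM.enum V
  have hs : ∀ m ∈ Icc 1 V.card, (fun m => t (e m)) m ≤ 1 * N ∧ 2 ∣ (fun m => t (e m)) m := by
    intro m hm
    have h1 := he1 m hm
    rw [hV, mem_filter] at h1
    rw [one_mul]
    exact ⟨htN _ h1.1, h1.2⟩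
  have hen1 : energy h V.card (fun m => t (e m)) ≤ enJ h J (fun m => (t m : ℤ)) := by
    rw [energy_eq_enJ]
    apply enJ_map h _ _ _ _ e 0 1 one_ne_zero
    · intro m hm; exact hVJ (he1 m hm)
    · exact he2
    · intro m _; ring
  have hen2 : (energy h V.card (fun m => t (e m)) : ℝ) * N ≤ Real.log N ^ (D + U * (2 * h)) * (V.card : ℝ) ^ (2 * h) := by
    rw [← hLd]
    calc _ ≤ (enJ h J (fun m => (t m : ℤ)) : ℝ) * N := by gcongr
      _ ≤ L ^ D * (x : ℝ) ^ (2 * h) := hE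
      _ ≤ L ^ D * (V.card * L ^ U) ^ (2 * h) := by gcongr
      _ = _ := by rw [mul_pow, ← pow_mul, pow_add]; ring
  have hfin := hfam N (le_trans (le_max_left _ _) hN) V.card (fun m => t (e m)) hs hen2
    ((Icc 1 V.card).filter (fun m => e m ∈ T)) (filter_subset _ _) (by
      intro m hm
      exact (hTb _ (mem_filter.1 hm).2).2)
  rw [← hLd] at hfin
  have hcardT : T.card ≤ ((Icc 1 V.card).filter (fun m => e m ∈ T)).card := by
    apply card_le_card_of_surjOn e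
    intro l hl
    obtain ⟨m, hm, hml⟩ := he3 l (hTV hl)
    refine ⟨m, ?_, hml⟩
    rw [mem_coe, mem_filter]
    exact ⟨hm, by rw [hml]; exact hl⟩
  calc (T.card : ℝ) ≤ ((Icc 1 V.card).filter (fun m => e m ∈ T)).card := Nat.cast_le.2 hcardT
    _ ≤ V.card / L ^ U := hfin
    _ ≤ x / L ^ U := div_le_div_of_nonneg_right (hVJc.trans hJxr) (by positivity)

/-- the number of exceptional members of a family near a convex or concave function in Goldbach's problem -/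
theorem goldbach (C U : ℕ) (η ε : ℝ) (hη : 0 < η) (hε : 0 < ε) : ∃ N₀ : ℕ, ∀ N : ℕ, N₀ ≤ N → ∀ x : ℕ,
    (N : ℝ) ^ (1 / 2 + η) ≤ x → x ≤ N → ∀ (f : ℕ → ℝ) (t : ℕ → ℕ), (∀ m ∈ Icc 1 x, t m ≤ N) →
    NearCx x f t (Real.log N ^ C) (N / ((x : ℝ) ^ 2 * Real.log N ^ C)) →
    ∀ T ⊆ Icc 1 x, (∀ m ∈ T, 2 ∣ t m ∧ ¬ Pool.Agent.W93.GB.Good ε (t m)) → (T.card : ℝ) ≤ x / Real.log N ^ U := by
  classical
  obtain ⟨h, D, n1, hh, hparts⟩ := parts C (U + 1) η hη
  obtain ⟨n2, hfew⟩ := few h D (U + 1) hh ε hε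
  obtain ⟨n3, hn3⟩ := SM.ev_log 3
  refine ⟨max n1 (max n2 n3), fun N hN x hx hxN f t htN hf T hT hTb => ?_⟩
  obtain ⟨J₁, hJ₁, J₂, hJ₂, h3, h4, h5⟩ := hparts N (le_trans (le_max_left _ _) hN) x hx hxN f t hf
  have hN2 : n2 ≤ N := le_trans (le_trans (le_max_left _ _) (le_max_right _ _)) hN
  have hL3 := hn3 N (le_trans (le_trans (le_max_right _ _) (le_max_right _ _)) hN)
  have hc : ∀ J ⊆ Icc 1 x, J.card ≤ x := by
    intro J hJ
    have := card_le_card hJ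
    rw [Nat.card_Icc] at this
    omega
  have a1 := hfew N hN2 x J₁ t (hc J₁ hJ₁) (fun m hm => htN m (hJ₁ hm)) h4 (T ∩ J₁) inter_subset_right
    (fun m hm => hTb m (mem_inter.1 hm).1)
  have a2 := hfew N hN2 x J₂ t (hc J₂ hJ₂) (fun m hm => htN m (hJ₂ hm)) h5 (T ∩ J₂) inter_subset_right
    (fun m hm => hTb m (mem_inter.1 hm).1)
  obtain ⟨L, hLd⟩ : ∃ L, L = Real.log (N : ℝ) := ⟨_, rfl⟩
  rw [← hLd] at hL3 h3 a1 a2 ⊢
  have hL0 : 0 < L := by linarith
  have hsub : T ⊆ (T ∩ J₁) ∪ ((T ∩ J₂) ∪ (Icc 1 x).filter (fun m => m ∉ J₁ ∧ m ∉ J₂)) := by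
    intro m hm
    rw [mem_union, mem_union, mem_inter, mem_inter, mem_filter]
    by_cases b1 : m ∈ J₁
    · exact Or.inl ⟨hm, b1⟩
    by_cases b2 : m ∈ J₂
    · exact Or.inr (Or.inl ⟨hm, b2⟩)
    exact Or.inr (Or.inr ⟨hT hm, b1, b2⟩)
  have hcard : (T.card : ℝ) ≤ (T ∩ J₁).card + ((T ∩ J₂).card + ((Icc 1 x).filter (fun m => m ∉ J₁ ∧ m ∉ J₂)).card) := by
    exact_mod_cast (card_le_card hsub).trans ((card_union_le _ _).trans (Nat.add_le_add_left (card_union_le _ _) _))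
  calc (T.card : ℝ) ≤ x / L ^ (U + 1) + (x / L ^ (U + 1) + x / L ^ (U + 1)) := by linarith
    _ = 3 * x / (L * L ^ U) := by rw [pow_succ]; ring
    _ ≤ L * x / (L * L ^ U) := by gcongr
    _ = x / L ^ U := mul_div_mul_left _ _ hL0.ne'

end Pool.Agent.K7.H49.CX
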