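import Mathlib
import Pool.Agent.K7.H49.CX.Gold

/-! Vectors of members of families near convex functions (helper49). -/

set_option autoImplicit false

namespace Pool.Agent.K7.H49.CX

open Finset
open Pool.Agent.H560R3.GB (energy)

/-- the vectors with a coordinate in a small set -/
lemma card_rest {k : ℕ} (x : Fin k → ℕ) (i : Fin k) (R : Finset ℕ) (hR : R ⊆ Icc 1 (x i)) (W : ℝ) (hW : 0 < W)
    (hRc : (R.card : ℝ) ≤ x i / W) :
    (((Fintype.piFinset fun j => Icc 1 (x j)).filter (fun m => m i ∈ R)).card : ℝ) ≤ (∏ j, (x j : ℝ)) / W := by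
  classical
  have h1 : (Fintype.piFinset fun j => Icc 1 (x j)).filter (fun m => m i ∈ R) ⊆
      Fintype.piFinset (Function.update (fun j => Icc 1 (x j)) i R) := by
    intro m hm
    rw [mem_filter, Fintype.mem_piFinset] at hm
    rw [Fintype.mem_piFinset]
    intro j
    by_cases hj : j = i
    · subst hj
      rw [Function.update_self]
      exact hm.2
    · rw [Function.update_of_ne hj]
      exact hm.1 j
  have h2 := card_le_card h1
  rw [Fintype.card_piFinset] at h2
  have h3 : ∏ j, (Function.update (fun j => Icc 1 (x j)) i R j).card = R.card * ∏ j ∈ univ.erase i, x j := by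
    rw [← mul_prod_erase univ _ (mem_univ i), Function.update_self]
    congr 1
    apply prod_congr rfl
    intro j hj
    rw [Function.update_of_ne (ne_of_mem_erase hj), Nat.card_Icc]
    omega
  rw [h3] at h2
  have h4 : (((Fintype.piFinset fun j => Icc 1 (x j)).filter (fun m => m i ∈ R)).card : ℝ) ≤
      R.card * ∏ j ∈ univ.erase i, (x j : ℝ) := by exact_mod_cast h2
  refine h4.trans ?_
  rw [← mul_prod_erase univ (fun j => (x j : ℝ)) (mem_univ i)]
  have h5 : 0 ≤ ∏ j ∈ univ.erase i, (x j : ℝ) := prod_nonneg fun _ _ => Nat.cast_nonneg _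
  calc _ ≤ (x i / W : ℝ) * ∏ j ∈ univ.erase i, (x j : ℝ) := by gcongr
    _ = _ := by ring

/-- the union of the boxes -/
lemma box {k : ℕ} (x : Fin k → ℕ) (J : Bool → Fin k → Finset ℕ) (W : ℝ) (hW : 0 < W)
    (hrest : ∀ i, (((Icc 1 (x i)).filter (fun m => m ∉ J true i ∧ m ∉ J false i)).card : ℝ) ≤ x i / W)
    (P : (Fin k → ℕ) → Prop) [DecidablePred P]
    (hbox : ∀ c : Fin k → Bool, (((Fintype.piFinset fun i => J (c i) i).filter P).card : ℝ) ≤ (∏ i, (x i : ℝ)) / W) :
    (((Fintype.piFinset fun i => Icc 1 (x i)).filter P).card : ℝ) ≤ (2 ^ k + k) * ((∏ i, (x i : ℝ)) / W) := by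
  classical
  have h1 : (Fintype.piFinset fun i => Icc 1 (x i)).filter P ⊆
      ((univ : Finset (Fin k → Bool)).biUnion fun c => (Fintype.piFinset fun i => J (c i) i).filter P) ∪
      ((univ : Finset (Fin k)).biUnion fun i => (Fintype.piFinset fun j => Icc 1 (x j)).filter
        (fun m => m i ∈ (Icc 1 (x i)).filter (fun m => m ∉ J true i ∧ m ∉ J false i))) := by
    intro m hm
    rw [mem_filter] at hm
    rw [mem_union, mem_biUnion, mem_biUnion]
    by_cases hall : ∀ i, m i ∈ J true i ∨ m i ∈ J false i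
    · left
      have h2 : ∀ i, ∃ b : Bool, m i ∈ J b i := by
        intro i
        rcases hall i with h | h
        · exact ⟨true, h⟩
        · exact ⟨false, h⟩
      choose c hc using h2
      exact ⟨c, mem_univ _, mem_filter.2 ⟨Fintype.mem_piFinset.2 hc, hm.2⟩⟩
    · right
      push Not at hall
      obtain ⟨i, hi⟩ := hall
      refine ⟨i, mem_univ _, mem_filter.2 ⟨hm.1, mem_filter.2 ⟨Fintype.mem_piFinset.1 hm.1 i, hi⟩⟩⟩
  have h2 : (((Fintype.piFinset fun i => Icc 1 (x i)).filter P).card : ℝ) ≤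
      ∑ c : Fin k → Bool, (((Fintype.piFinset fun i => J (c i) i).filter P).card : ℝ) +
      ∑ i : Fin k, (((Fintype.piFinset fun j => Icc 1 (x j)).filter
        (fun m => m i ∈ (Icc 1 (x i)).filter (fun m => m ∉ J true i ∧ m ∉ J false i))).card : ℝ) := by
    exact_mod_cast (card_le_card h1).trans ((card_union_le _ _).trans (add_le_add card_biUnion_le card_biUnion_le))
  refine h2.trans ?_
  have h3 : ∑ c : Fin k → Bool, (((Fintype.piFinset fun i => J (c i) i).filter P).card : ℝ) ≤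
      2 ^ k * ((∏ i, (x i : ℝ)) / W) := by
    refine (sum_le_card_nsmul _ _ _ fun c _ => hbox c).trans (le_of_eq ?_)
    rw [card_univ, Fintype.card_fun, Fintype.card_bool, Fintype.card_fin, nsmul_eq_mul]
    push_cast
    ring
  have h4 : ∑ i : Fin k, (((Fintype.piFinset fun j => Icc 1 (x j)).filter
        (fun m => m i ∈ (Icc 1 (x i)).filter (fun m => m ∉ J true i ∧ m ∉ J false i))).card : ℝ) ≤
      k * ((∏ i, (x i : ℝ)) / W) := by
    refine (sum_le_card_nsmul _ _ _ fun i _ => card_rest x i _ (filter_subset _ _) W hW (hrest i)).trans (le_of_eq ?_)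
    rw [card_univ, Fintype.card_fin, nsmul_eq_mul]
  linarith

/-- vectors of members of finite sets of indices -/
lemma box_fam {k : ℕ} (h D U : ℕ) (N : ℕ) (hL1 : 1 ≤ Real.log N) (P : (Fin k → ℕ) → Prop) [DecidablePred P]
    (Q : Fin k → ℕ → Prop)
    (hcons : ∀ (x : Fin k → ℕ) (s : Fin k → ℕ → ℕ), (∀ i, ∀ m ∈ Icc 1 (x i), Q i (s i m)) →
      (∀ i, (energy h (x i) (s i) : ℝ) * N ≤ Real.log N ^ (D + U * (2 * h)) * (x i : ℝ) ^ (2 * h)) →
      (((Fintype.piFinset fun i => Icc 1 (x i)).filter (fun m => P (fun i => s i (m i)))).card : ℝ) ≤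
        (∏ i, (x i : ℝ)) / Real.log N ^ U)
    (x : Fin k → ℕ) (J : Fin k → Finset ℕ) (t : Fin k → ℕ → ℕ) (hJx : ∀ i, (J i).card ≤ x i)
    (hQ : ∀ i, ∀ m ∈ J i, Q i (t i m))
    (hE : ∀ i, (enJ h (J i) (fun m => (t i m : ℤ)) : ℝ) * N ≤ Real.log N ^ D * (x i : ℝ) ^ (2 * h)) :
    (((Fintype.piFinset J).filter (fun m => P (fun i => t i (m i)))).card : ℝ) ≤ (∏ i, (x i : ℝ)) / Real.log N ^ U := by
  classical
  obtain ⟨L, hLd⟩ : ∃ L, L = Real.log (N : ℝ) := ⟨_, rfl⟩
  rw [← hLd] at hL1 hE hcons ⊢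
  have hL0 : 0 < L := by linarith
  have hJxr : ∀ i, ((J i).card : ℝ) ≤ x i := fun i => by exact_mod_cast hJx i
  by_cases hsmall : ∃ i, ((J i).card : ℝ) ≤ x i / L ^ U
  · obtain ⟨i, hi⟩ := hsmall
    have h1 : (((Fintype.piFinset J).filter (fun m => P (fun i => t i (m i)))).card : ℝ) ≤ ∏ j, ((J j).card : ℝ) := by
      have h2 := card_filter_le (Fintype.piFinset J) (fun m => P (fun i => t i (m i)))
      rw [Fintype.card_piFinset] at h2
      exact_mod_cast h2
    refine h1.trans ?_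
    rw [← mul_prod_erase univ (fun j => ((J j).card : ℝ)) (mem_univ i),
      ← mul_prod_erase univ (fun j => (x j : ℝ)) (mem_univ i)]
    have h5 : ∏ j ∈ univ.erase i, ((J j).card : ℝ) ≤ ∏ j ∈ univ.erase i, (x j : ℝ) :=
      prod_le_prod (fun _ _ => Nat.cast_nonneg _) fun j _ => hJxr j
    have h6 : 0 ≤ ∏ j ∈ univ.erase i, ((J j).card : ℝ) := prod_nonneg fun _ _ => Nat.cast_nonneg _
    calc _ ≤ (x i / L ^ U : ℝ) * ∏ j ∈ univ.erase i, (x j : ℝ) := by gcongr
      _ = _ := by ring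
  · push Not at hsmall
    have hlt : ∀ i, (x i : ℝ) ≤ (J i).card * L ^ U := fun i => ((div_lt_iff₀ (by positivity)).1 (hsmall i)).le
    choose e he1 he2 he3 using fun i => SM.enum (J i)
    have h1 := hcons (fun i => (J i).card) (fun i m => t i (e i m)) (fun i m hm => hQ i _ (he1 i m hm)) (fun i => by
      have hen1 : energy h (J i).card (fun m => t i (e i m)) ≤ enJ h (J i) (fun m => (t i m : ℤ)) := by
        rw [energy_eq_enJ]
        apply enJ_map h _ _ _ _ (e i) 0 1 one_ne_zero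
        · intro m hm; exact he1 i m hm
        · exact he2 i
        · intro m _; ring
      have h2 := hlt i
      calc _ ≤ (enJ h (J i) (fun m => (t i m : ℤ)) : ℝ) * N := by gcongr
        _ ≤ L ^ D * (x i : ℝ) ^ (2 * h) := hE i
        _ ≤ L ^ D * ((J i).card * L ^ U) ^ (2 * h) := by gcongr
        _ = _ := by rw [mul_pow, ← pow_mul, pow_add]; ring)
    have h2 : ((Fintype.piFinset J).filter (fun m => P (fun i => t i (m i)))).card ≤
        ((Fintype.piFinset fun i => Icc 1 (J i).card).filter (fun m => P (fun i => t i (e i (m i))))).card := by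
      apply card_le_card_of_surjOn (fun m : Fin k → ℕ => fun i => e i (m i))
      intro l hl
      rw [mem_coe, mem_filter, Fintype.mem_piFinset] at hl
      choose m hm hml using fun i => he3 i (l i) (hl.1 i)
      refine ⟨m, ?_, funext hml⟩
      rw [mem_coe, mem_filter, Fintype.mem_piFinset]
      refine ⟨hm, ?_⟩
      have e1 : (fun i => t i (e i (m i))) = fun i => t i (l i) := by
        funext i
        rw [hml i]
      rw [e1]
      exact hl.2
    have h3 : ∏ i, ((J i).card : ℝ) ≤ ∏ i, (x i : ℝ) := prod_le_prod (fun _ _ => Nat.cast_nonneg _) fun j _ => hJxr j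
    calc _ ≤ (((Fintype.piFinset fun i => Icc 1 (J i).card).filter (fun m => P (fun i => t i (e i (m i))))).card : ℝ) := by
          exact_mod_cast h2
      _ ≤ (∏ i, ((J i).card : ℝ)) / L ^ U := h1
      _ ≤ _ := by gcongr

/-- vectors of members of families near convex functions -/
theorem conv_box (C U : ℕ) (η : ℝ) (hη : 0 < η) : ∃ h D N₀ : ℕ, 1 ≤ h ∧ ∀ N : ℕ, N₀ ≤ N → ∀ k : ℕ,
    ∀ (P : (Fin k → ℕ) → Prop) [DecidablePred P] (Q : Fin k → ℕ → Prop),
    (∀ (x : Fin k → ℕ) (s : Fin k → ℕ → ℕ), (∀ i, ∀ m ∈ Icc 1 (x i), Q i (s i m)) →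
      (∀ i, (energy h (x i) (s i) : ℝ) * N ≤ Real.log N ^ (D + U * (2 * h)) * (x i : ℝ) ^ (2 * h)) →
      (((Fintype.piFinset fun i => Icc 1 (x i)).filter (fun m => P (fun i => s i (m i)))).card : ℝ) ≤
        (∏ i, (x i : ℝ)) / Real.log N ^ U) →
    ∀ x : Fin k → ℕ, (∀ i, (N : ℝ) ^ (1 / 2 + η) ≤ x i ∧ x i ≤ N) → ∀ (f : Fin k → ℕ → ℝ) (t : Fin k → ℕ → ℕ),
    (∀ i, NearCx (x i) (f i) (t i) (Real.log N ^ C) (N / ((x i : ℝ) ^ 2 * Real.log N ^ C))) →
    (∀ i, ∀ m ∈ Icc 1 (x i), Q i (t i m)) →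
    (((Fintype.piFinset fun i => Icc 1 (x i)).filter (fun m => P (fun i => t i (m i)))).card : ℝ) ≤
      (2 ^ k + k) * ((∏ i, (x i : ℝ)) / Real.log N ^ U) := by
  classical
  obtain ⟨h, D, n1, hh, hparts⟩ := parts C U η hη
  obtain ⟨n2, hn2⟩ := SM.ev_log 1
  refine ⟨h, D, max n1 n2, hh, fun N hN k P _ Q hcons x hx f t hf hQ => ?_⟩
  have hL1 := hn2 N (le_trans (le_max_right _ _) hN)
  choose J₁ hJ₁ J₂ hJ₂ h3 h4 h5 using fun i => hparts N (le_trans (le_max_left _ _) hN) (x i) (hx i).1 (hx i).2 (f i) (t i) (hf i)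
  have hc : ∀ i, ∀ J ⊆ Icc 1 (x i), J.card ≤ x i := by
    intro i J hJ
    have := card_le_card hJ
    rw [Nat.card_Icc] at this
    omega
  have hJb : ∀ b : Bool, ∀ i, (if b then J₁ i else J₂ i) ⊆ Icc 1 (x i) := by
    intro b i
    cases b
    · simpa using hJ₂ i
    · simpa using hJ₁ i
  apply box x (fun b i => if b then J₁ i else J₂ i) (Real.log N ^ U) (by positivity)
  · intro i
    have := h3 i
    simpa using this
  · intro c
    apply box_fam h D U N hL1 P Q hcons x (fun i => if c i then J₁ i else J₂ i) t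
    · intro i
      exact hc i _ (hJb (c i) i)
    · intro i m hm
      exact hQ i m (hJb (c i) i hm)
    · intro i
      cases hci : c i
      · simpa [hci] using h5 i
      · simpa [hci] using h4 i

end Pool.Agent.K7.H49.CX
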